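import Pool.Agent.K4H9.NJ.Fin

/-! The genus. -/

set_option autoImplicit false

namespace Pool.Agent.K4H9.NJ

open Pool.Agent.H891R2.Jones

variable {m : ℕ}

/-- compatible with the corners of a crossing -/
def CrR {P V : Type} (f : P × Bool → V) (x : Crossing P) : Prop :=
  f (x.a, !x.underFwd) = f (x.b, x.overFwd) ∧ f (x.b, !x.overFwd) = f (x.c, !x.underFwd) ∧
    f (x.c, x.underFwd) = f (x.d, !x.overFwd) ∧ f (x.d, x.overFwd) = f (x.a, x.underFwd)

theorem resp_adj {P V : Type} (D : Diagram P) (f : P × Bool → V)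
    (h1 : ∀ x ∈ D.arcs, ∀ b, f (x.1, b) = f (x.2, b)) (h2 : ∀ x ∈ D.crossings, CrR f x) (s t : P × Bool)
    (h : Adj D s t) : f s = f t := by
  rcases h with ⟨x, hx, b, rfl, rfl⟩ | ⟨x, hx, h⟩
  · exact h1 x hx b
  · obtain ⟨e1, e2, e3, e4⟩ := h2 x hx
    rcases h with ⟨rfl, rfl⟩ | ⟨rfl, rfl⟩ | ⟨rfl, rfl⟩ | ⟨rfl, rfl⟩
    · exact e1
    · exact e2
    · exact e3
    · exact e4

theorem crR_new {V : Type} (O : Outer m) (p q : Fin m) (pos : Bool) (f : (O.P ⊕ Fin m) × Bool → V)
    (W N E S : V) (h1 : ∀ w, f (.inl (O.lower p), O.up p == w) = if w then W else S)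
    (h2 : ∀ w, f (.inl (O.lower q), O.up q == w) = if w then S else E)
    (h3 : ∀ w, f (.inr p, O.up q == w) = if w then W else N)
    (h4 : ∀ w, f (.inr q, O.up p == w) = if w then N else E) :
    CrR f (O.newCrossing p q pos) := by
  have a1 := h1 true
  have a2 := h1 false
  have a3 := h2 true
  have a4 := h2 false
  have a5 := h3 true
  have a6 := h3 false
  have a7 := h4 true
  have a8 := h4 false
  unfold CrR Outer.newCrossing
  clear h1 h2 h3 h4
  generalize O.up p = u at *
  generalize O.up q = v at *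
  cases pos <;> cases u <;> cases v <;> simp_all

/-- the inner sides of the two strands at the places `i` and `i + 1` -/
def inn (i : ℕ) (h : i + 1 < m) (j : Fin m) (w : Bool) : Prop :=
  (j = pl i h ∧ w = false) ∨ (j = pr i h ∧ w = true)

instance (i : ℕ) (h : i + 1 < m) (j : Fin m) (w : Bool) : Decidable (inn i h j w) := by
  unfold inn
  infer_instance

/-- a labelling of the regions with `c` labels, with given labels at the box -/
def LS (L : Type) (O : Outer m) (c : ℕ) (lo hi : Fin m → Bool → L) : Prop :=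
  ∃ (Q : Type) (_ : Finite Q) (e : L → Q) (f : O.P × Bool → Q), Nat.card Q = c ∧
    Function.Surjective f ∧ (∀ x ∈ O.arcs, ∀ b, f (x.1, b) = f (x.2, b)) ∧
    (∀ x ∈ O.crossings, CrR f x) ∧
    (∀ j w, f (O.lower j, O.up j == w) = e (lo j w)) ∧ ∀ j s, f (O.upper j, s) = e (hi j s)

theorem beq_beq (u w : Bool) : (u == (u == w)) = w := by cases u <;> cases w <;> rfl

/-- one more crossing, with a general labelling -/
theorem ls_pushD {Q : Type} (O : Outer m) (pos : Bool) (i : ℕ) (h : i + 1 < m) (lo : Fin m → Bool → Q)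
    (lo' : Fin m → Bool → Q) (f : O.P × Bool → Q)
    (hlo : ∀ j w, ¬ inn i h j w → lo' j w = lo j w)
    (h1 : lo (pl i h) false = lo (pr i h) true) (h2 : lo' (pl i h) false = lo' (pr i h) true)
    (hf1 : ∀ x ∈ O.arcs, ∀ b, f (x.1, b) = f (x.2, b)) (hf2 : ∀ x ∈ O.crossings, CrR f x)
    (hl : ∀ j w, f (O.lower j, O.up j == w) = lo j w) :
    ∃ f' : (O.P ⊕ Fin m) × Bool → Q, (∀ p b, f' (.inl p, b) = f (p, b)) ∧
      (∀ x ∈ (pushD O pos i h).arcs, ∀ b, f' (x.1, b) = f' (x.2, b)) ∧
      (∀ x ∈ (pushD O pos i h).crossings, CrR f' x) ∧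
      ∀ j w, f' (.inr j, (pushD O pos i h).up j == w) = lo' j w := by
  set f' : (O.P ⊕ Fin m) × Bool → Q := fun s => match s with
    | (.inl p, b) => f (p, b)
    | (.inr j, b) => lo' j ((pushD O pos i h).up j == b) with hf'
  have e1 : ∀ j w, f' (.inr j, (pushD O pos i h).up j == w) = lo' j w := by
    intro j w
    show lo' j ((pushD O pos i h).up j == ((pushD O pos i h).up j == w)) = lo' j w
    rw [beq_beq]
  have up1 : (pushD O pos i h).up (pl i h) = O.up (pr i h) := by
    show O.up (Equiv.swap (pl i h) (pr i h) (pl i h)) = _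
    rw [Equiv.swap_apply_left]
  have up2 : (pushD O pos i h).up (pr i h) = O.up (pl i h) := by
    show O.up (Equiv.swap (pl i h) (pr i h) (pr i h)) = _
    rw [Equiv.swap_apply_right]
  have i1 : ¬ inn i h (pl i h) true := by
    unfold inn
    have := pl_ne_pr i h
    simp [this]
  have i2 : ¬ inn i h (pr i h) false := by
    unfold inn
    have := (pl_ne_pr i h).symm
    simp [this]
  refine ⟨f', fun p b => rfl, fun x hx b => ?_, ?_, e1⟩
  · refine (pushD_arcs O pos i h (fun p => f' (p, b))).2 ⟨fun x hx => hf1 x hx b, fun j hj hj' => ?_⟩ x hx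
    have e2 := e1 j (O.up j == b)
    have up3 : (pushD O pos i h).up j = O.up j := by
      show O.up (Equiv.swap (pl i h) (pr i h) j) = _
      rw [Equiv.swap_apply_of_ne_of_ne hj hj']
    rw [up3, beq_beq, hlo j _ (by unfold inn; tauto), ← hl, beq_beq] at e2
    exact e2.symm
  · refine (pushD_crossings O pos i h (fun x => CrR f' x)).2 ⟨hf2, ?_⟩
    refine crR_new O _ _ pos f' (lo (pl i h) true) (lo' (pl i h) false) (lo (pr i h) false)
      (lo (pl i h) false) ?_ ?_ ?_ ?_
    · intro w
      cases w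
      · exact hl _ _
      · exact hl _ _
    · intro w
      cases w
      · exact hl _ _
      · exact (hl _ _).trans h1.symm
    · intro w
      rw [← up1, e1]
      cases w
      · rfl
      · exact hlo _ _ i1
    · intro w
      rw [← up2, e1]
      cases w
      · exact hlo _ _ i2
      · exact h2.symm

theorem ls_new (O : Outer m) (pos : Bool) (i : ℕ) (h : i + 1 < m) (c : ℕ)
    (lo hi : Fin m → Bool → Fin 3) (y : Option (Fin 3))
    (hO : LS (Option (Fin 3)) O c (fun j w => if inn i h j w then y else some (lo j w))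
      (fun j s => some (hi j s))) :
    LS (Option (Fin 3)) (O.push pos i) (c + 1) (fun j w => if inn i h j w then none else some (lo j w))
      (fun j s => some (hi j s)) := by
  obtain ⟨Q, hQ, e, f, hc, hs, hf1, hf2, hl, hu⟩ := hO
  rw [push_eq O pos i h]
  have t1 : inn i h (pl i h) false := Or.inl ⟨rfl, rfl⟩
  have t2 : inn i h (pr i h) true := Or.inr ⟨rfl, rfl⟩
  obtain ⟨f', g1, g2, g3, g4⟩ := ls_pushD O pos i h
    (fun j w => some (e (if inn i h j w then y else some (lo j w))))
    (fun j w => Option.map (fun x => e (some x)) (if inn i h j w then none else some (lo j w)))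
    (fun s => some (f s)) (fun j w hj => by simp [if_neg hj]) (by simp [if_pos t1, if_pos t2])
    (by simp [if_pos t1, if_pos t2]) (fun x hx b => congrArg some (hf1 x hx b))
    (fun x hx => ⟨congrArg some (hf2 x hx).1, congrArg some (hf2 x hx).2.1,
      congrArg some (hf2 x hx).2.2.1, congrArg some (hf2 x hx).2.2.2⟩)
    (fun j w => congrArg some (hl j w))
  refine ⟨Option Q, inferInstance, Option.map (fun x => e (some x)), f', ?_, ?_, g2, g3, g4, ?_⟩
  · rw [Finite.card_option, hc]
  · intro z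
    cases z with
    | none =>
      exact ⟨(.inr (pl i h), (pushD O pos i h).up (pl i h) == false),
        (g4 (pl i h) false).trans (by rw [if_pos t1]; rfl)⟩
    | some z =>
      obtain ⟨⟨p, b⟩, hp⟩ := hs z
      exact ⟨(.inl p, b), (g1 p b).trans (by rw [hp])⟩
  · intro j s
    exact (g1 _ _).trans (by rw [hu]; rfl)

theorem ls_old (O : Outer m) (pos : Bool) (i : ℕ) (h : i + 1 < m) (c : ℕ)
    (lo hi : Fin m → Bool → Fin 3) (y : Option (Fin 3)) (y' : Fin 3)
    (hO : LS (Option (Fin 3)) O c (fun j w => if inn i h j w then y else some (lo j w))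
      (fun j s => some (hi j s))) :
    LS (Fin 3) (O.push pos i) c (fun j w => if inn i h j w then y' else lo j w) hi := by
  obtain ⟨Q, hQ, e, f, hc, hs, hf1, hf2, hl, hu⟩ := hO
  rw [push_eq O pos i h]
  have t1 : inn i h (pl i h) false := Or.inl ⟨rfl, rfl⟩
  have t2 : inn i h (pr i h) true := Or.inr ⟨rfl, rfl⟩
  obtain ⟨f', g1, g2, g3, g4⟩ := ls_pushD O pos i h
    (fun j w => e (if inn i h j w then y else some (lo j w)))
    (fun j w => e (some (if inn i h j w then y' else lo j w)))
    f (fun j w hj => by simp [if_neg hj]) (by simp [if_pos t1, if_pos t2])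
    (by simp [if_pos t1, if_pos t2]) hf1 hf2 hl
  refine ⟨Q, hQ, fun x => e (some x), f', hc, ?_, g2, g3, g4, ?_⟩
  · intro z
    obtain ⟨⟨p, b⟩, hp⟩ := hs z
    exact ⟨(.inl p, b), (g1 p b).trans hp⟩
  · intro j s
    exact (g1 _ _).trans (hu j s)

theorem ls_pushN' (O : Outer m) (pos : Bool) (i : ℕ) (h : i + 1 < m) (c : ℕ)
    (lo hi : Fin m → Bool → Fin 3) (y : Option (Fin 3))
    (hO : LS (Option (Fin 3)) O c (fun j w => if inn i h j w then y else some (lo j w))
      (fun j s => some (hi j s))) : ∀ t : ℕ, ∃ y', LS (Option (Fin 3)) (pushN O pos i t) (c + t)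
        (fun j w => if inn i h j w then y' else some (lo j w)) (fun j s => some (hi j s))
  | 0 => ⟨y, hO⟩
  | t + 1 => by
    obtain ⟨y', h'⟩ := ls_pushN' O pos i h c lo hi y hO t
    exact ⟨none, ls_new _ pos i h _ lo hi y' h'⟩

theorem ls_pushN (O : Outer m) (pos : Bool) (i : ℕ) (h : i + 1 < m) (c : ℕ)
    (lo hi : Fin m → Bool → Fin 3) (hlo : lo (pl i h) false = lo (pr i h) true) (hO : LS (Fin 3) O c lo hi)
    (t : ℕ) (y' : Fin 3) :
    LS (Fin 3) (pushN O pos i (t + 1)) (c + t) (fun j w => if inn i h j w then y' else lo j w) hi := by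
  have h1 : LS (Option (Fin 3)) O c
      (fun j w => if inn i h j w then some (lo (pl i h) false) else some (lo j w))
      (fun j s => some (hi j s)) := by
    obtain ⟨Q, hQ, e, f, hc, hs, hf1, hf2, hl, hu⟩ := hO
    refine ⟨Q, hQ, fun x => e (x.getD 0), f, hc, hs, hf1, hf2, fun j w => ?_, fun j s => hu j s⟩
    rw [hl]
    show e (lo j w) = e ((if inn i h j w then some (lo (pl i h) false) else some (lo j w)).getD 0)
    by_cases hi : inn i h j w
    · rw [if_pos hi]
      rcases hi with ⟨rfl, rfl⟩ | ⟨rfl, rfl⟩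
      · rfl
      · rw [← hlo]
        rfl
    · rw [if_neg hi]
      rfl
  obtain ⟨y, h2⟩ := ls_pushN' O pos i h c lo hi _ h1 t
  exact ls_old _ pos i h _ lo hi y y' h2

theorem ls_virt {L : Type} (O : Outer m) (i : ℕ) (h : i + 1 < m) (c : ℕ)
    (lo hi : Fin m → Bool → L) (hO : LS L O c lo hi) :
    LS L (virt O i) c (fun j w => lo (Equiv.swap (pl i h) (pr i h) j) w) hi := by
  obtain ⟨Q, hQ, e, f, hc, hs, hf1, hf2, hl, hu⟩ := hO
  rw [virt_eq O i h]
  exact ⟨Q, hQ, e, f, hc, hs, hf1, hf2, fun j w => hl _ w, hu⟩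

theorem ls_close {L : Type} (O : Outer m) (c : ℕ) (lo hi : Fin m → Bool → L) (hO : LS L O c lo hi)
    (h : ∀ j w, lo j w = hi j (O.up j == w)) : c ≤ regions O.close := by
  obtain ⟨Q, hQ, e, f, hc, hs, hf1, hf2, hl, hu⟩ := hO
  have h1 : ∀ x ∈ O.close.arcs, ∀ b, f (x.1, b) = f (x.2, b) := by
    intro x hx b
    refine (close_arcs O (fun p => f (p, b))).2 ⟨fun x hx => hf1 x hx b, fun j => ?_⟩ x hx
    have := hl j (O.up j == b)
    rw [beq_beq] at this
    show f (O.lower j, b) = f (O.upper j, b)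
    rw [this, hu, h, beq_beq]
  have h2 := resp_adj O.close f h1 hf2
  rw [← hc]
  have : Finite (O.P × Bool) := inferInstance
  have : Finite (Quot (Adj O.close)) := Quot.finite _
  refine Nat.card_le_card_of_surjective (Quot.lift f h2) ?_
  intro z
  obtain ⟨s, hs'⟩ := hs z
  exact ⟨Quot.mk _ s, hs'⟩

theorem length_pushN (O : Outer m) (pos : Bool) (i : ℕ) (h : i + 1 < m) : ∀ n,
    (pushN O pos i n).crossings.length = O.crossings.length + n
  | 0 => rfl
  | n + 1 => by
    show ((pushN O pos i n).push pos i).crossings.length = _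
    rw [push_eq _ pos i h]
    show ((pushN O pos i n).crossings.map (Crossing.map (Sum.inl : _ → _ ⊕ Fin m)) ++
      [(pushN O pos i n).newCrossing ⟨i, Nat.lt_of_succ_lt h⟩ ⟨i+1, h⟩ pos]).length = _
    rw [List.length_append, List.length_map, length_pushN O pos i h n]
    rfl

theorem length_virt (O : Outer m) (i : ℕ) (h : i + 1 < m) :
    (virt O i).crossings.length = O.crossings.length := by
  rw [virt_eq O i h]
  rfl

theorem length_W (k n : ℕ) : (W k n).crossings.length = 4 * k + 2 * n := by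
  have h0 : 0 + 1 < 3 := by norm_num
  have h1 : 1 + 1 < 3 := by norm_num
  show (ins (pushN base false 0 (2 * n)) true 1 k).crossings.length = _
  unfold ins
  rw [length_pushN _ _ _ h1, length_virt _ _ h1, length_pushN _ _ _ h1, length_virt _ _ h1,
    length_pushN _ _ _ h0]
  show 0 + 2 * n + 2 * k + 2 * k = _
  ring

/-- the labels at the lower side of the box of `base` (west, east) -/
def lo0 : Fin 3 → Bool → Fin 3 := fun j w =>
  if j = 0 then (if w then 0 else 1) else if j = 1 then (if w then 1 else 2) else (if w then 2 else 1)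

/-- the labels at the upper side of the box of `base` (left, right) -/
def hi0 : Fin 3 → Bool → Fin 3 := fun _ s => if s then 0 else 1

/-- the labels of the sides in `base` -/
def f0 : Fin 3 × Bool → Fin 3 := fun s =>
  if s.1 = 1 then (if s.2 then 2 else 1) else (if s.2 then 0 else 1)

theorem h01 : 0 + 1 < 3 := by norm_num

theorem h11 : 1 + 1 < 3 := by norm_num

theorem ls_base : LS (Fin 3) base 3 lo0 hi0 := by
  refine ⟨Fin 3, inferInstance, id, f0, by simp, ?_,
    fun _ hx => absurd hx List.not_mem_nil, fun _ hx => absurd hx List.not_mem_nil, ?_, ?_⟩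
  · intro z
    fin_cases z
    · exact ⟨((0 : Fin 3), true), rfl⟩
    · exact ⟨((0 : Fin 3), false), rfl⟩
    · exact ⟨((1 : Fin 3), true), rfl⟩
  · intro j w
    fin_cases j <;> cases w <;> rfl
  · intro j w
    fin_cases j <;> cases w <;> rfl

theorem W_torus (k n : ℕ) (hk : 0 < k) (hn : 0 < n) : OnTorus (W k n) := by
  unfold OnTorus
  rw [length_W]
  have s1 := ls_pushN base false 0 h01 3 lo0 hi0 rfl ls_base (2 * n - 1) 1
  have e1 : 2 * n - 1 + 1 = 2 * n := by omega
  have e2 : 2 * k - 1 + 1 = 2 * k := by omega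
  rw [e1] at s1
  have s2 := ls_virt _ 1 h11 _ _ _ s1
  have s3 := ls_pushN _ true 1 h11 _ _ _ (by decide) s2 (2 * k - 1) 1
  rw [e2] at s3
  have s4 := ls_virt _ 1 h11 _ _ _ s3
  have s5 := ls_pushN _ false 1 h11 _ _ _ (by decide) s4 (2 * k - 1) 0
  rw [e2] at s5
  have s6 := ls_close _ _ _ _ s5 ?_
  · have : 3 + (2 * n - 1) + (2 * k - 1) + (2 * k - 1) = 4 * k + 2 * n := by omega
    rw [this] at s6
    exact s6
  · intro j w
    have e3 : (ins (pushN base false 0 (2 * n)) true 1 k).up = base.up := by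
      rw [ins_up _ _ _ _ h11, pushN_up _ _ _ _ h01]
    have e4 : (pushN (virt (pushN (virt (pushN base false 0 (2 * n)) 1) true 1 (2 * k)) 1) false 1
      (2 * k)).up = base.up := e3
    rw [e4]
    revert j w
    decide

end Pool.Agent.K4H9.NJ
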