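import Pool.Agent.K4H9.NJ.Jon

/-! Closedness, number of components, numberings. -/

set_option autoImplicit false

namespace Pool.Agent.K4H9.NJ

open Finset Pool.Agent.H891R2.Jones

variable {m : ℕ}


theorem rev_virt (O : Outer m) (i : ℕ) : (virt O i).rev = virt O.rev i := by
  by_cases h : i + 1 < m
  · unfold virt
    rw [dif_pos h, dif_pos h]
    rfl
  · unfold virt
    rw [dif_neg h, dif_neg h]

theorem Good_virt (O : Outer m) (v : Fin m → Bool) (i : ℕ) (hO : Good O v) : Good (virt O i) v := by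
  by_cases h : i + 1 < m
  · have key : ∀ (O : Outer m) (v : Fin m → Bool), (∀ x, Sst O v x = 1) →
        ∀ x, Sst (virt O i) v x = 1 := by
      intro O v hO
      unfold virt
      rw [dif_pos h]
      intro x
      refine Eq.trans ?_ (hO x)
      unfold Sst
      dsimp only
      congr 2
      exact Equiv.sum_comp (Equiv.swap (⟨i, Nat.lt_of_succ_lt h⟩ : Fin m) ⟨i + 1, h⟩)
        (fun j => if O.up j = true ∧ O.lower j = x then 1 else 0)
    refine ⟨key O v hO.1, ?_⟩
    rw [rev_virt]
    exact key O.rev _ hO.2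
  · unfold virt
    rw [dif_neg h]
    exact hO

theorem Good_pushN (O : Outer m) (v : Fin m → Bool) (pos : Bool) (i : ℕ) (hO : Good O v) :
    ∀ n, Good (pushN O pos i n) v
  | 0 => hO
  | n + 1 => Good_push _ v pos i (Good_pushN O v pos i hO n)

theorem pat_inj (u v : Fin m → Bool) (h : pat u = pat v) : u = v := by
  funext j
  have := congrFun h j
  simp only [pat, Fin.is_lt, dif_pos] at this
  revert this
  cases u j <;> cases v j <;> simp

theorem ins_up (O : Outer m) (pos : Bool) (i k : ℕ) (h : i + 1 < m) : (ins O pos i k).up = O.up :=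
  pat_inj _ _ (owr_ins O pos i k h).2

theorem pushN_up (O : Outer m) (pos : Bool) (i k : ℕ) (h : i + 1 < m) :
    (pushN O pos i (2 * k)).up = O.up := by
  have := (owr_pushN O pos i h (2 * k)).2
  rw [if_pos (even_two_mul k)] at this
  exact pat_inj _ _ this

theorem ins_closed (O : Outer m) (pos : Bool) (i k : ℕ) (h : i + 1 < m) (hO : O.close.IsClosed) :
    (ins O pos i k).close.IsClosed := by
  rw [closed_iff, ins_up O pos i k h]
  rw [closed_iff] at hO
  exact Good_pushN _ _ _ _ (Good_virt _ _ _ (Good_pushN _ _ _ _ (Good_virt _ _ _ hO) _)) _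

theorem pushN_closed (O : Outer m) (pos : Bool) (i k : ℕ) (h : i + 1 < m) (hO : O.close.IsClosed) :
    (pushN O pos i (2 * k)).close.IsClosed := by
  rw [closed_iff, pushN_up O pos i k h]
  rw [closed_iff] at hO
  exact Good_pushN _ _ _ _ hO _

/-! ### components -/

theorem eqv_le {α : Type} {r s : α → α → Prop} (h : ∀ p q, r p q → Relation.EqvGen s p q) {p q : α}
    (hpq : Relation.EqvGen r p q) : Relation.EqvGen s p q := by
  induction hpq with
  | rel p q h' => exact h p q h'
  | refl p => exact Relation.EqvGen.refl p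
  | symm p q _ ih => exact ih.symm
  | trans p q r _ _ ih1 ih2 => exact ih1.trans _ _ _ ih2

theorem eqv_map {α β : Type} (f : α → β) {r : α → α → Prop} {s : β → β → Prop}
    (h : ∀ p q, r p q → Relation.EqvGen s (f p) (f q)) {p q : α}
    (hpq : Relation.EqvGen r p q) : Relation.EqvGen s (f p) (f q) := by
  induction hpq with
  | rel p q h' => exact h p q h'
  | refl p => exact Relation.EqvGen.refl _
  | symm p q _ ih => exact ih.symm
  | trans p q r _ _ ih1 ih2 => exact ih1.trans _ _ _ ih2

/-- the outer part -/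
def outD (O : Outer m) : Diagram O.P := ⟨O.arcs, O.crossings⟩

/-- pieces of the outer part, or strands of the box -/
def St (O : Outer m) (π : Equiv.Perm (Fin m)) (p q : O.P) : Prop :=
  Piece (outD O) p q ∨ ∃ j, p = O.lower j ∧ q = O.upper (π j)

def Conn (O : Outer m) (π : Equiv.Perm (Fin m)) : Prop := ∀ p q, Relation.EqvGen (St O π) p q

theorem conn_close (O : Outer m) : (∀ p q, Relation.EqvGen (Piece O.close) p q) ↔ Conn O 1 := by
  have h1 : ∀ p q, Piece O.close p q → Relation.EqvGen (St O 1) p q := by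
    intro p q h
    rcases h with h | h
    · have h2 : (p, q) ∈ O.arcs ++ (List.finRange m).map (fun j =>
        if O.up j then (O.lower j, O.upper j) else (O.upper j, O.lower j)) := h
      rw [List.mem_append, List.mem_map] at h2
      rcases h2 with h2 | ⟨j, _, h2⟩
      · exact Relation.EqvGen.rel _ _ (Or.inl (Or.inl h2))
      · split_ifs at h2
        · obtain ⟨rfl, rfl⟩ := Prod.mk.inj h2
          exact Relation.EqvGen.rel _ _ (Or.inr ⟨j, rfl, rfl⟩)
        · obtain ⟨rfl, rfl⟩ := Prod.mk.inj h2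
          exact Relation.EqvGen.symm _ _ (Relation.EqvGen.rel _ _ (Or.inr ⟨j, rfl, rfl⟩))
    · exact Relation.EqvGen.rel _ _ (Or.inl (Or.inr h))
  have h2 : ∀ p q, St O 1 p q → Relation.EqvGen (Piece O.close) p q := by
    intro p q h
    rcases h with (h | h) | ⟨j, rfl, rfl⟩
    · exact Relation.EqvGen.rel _ _ (Or.inl (List.mem_append_left _ h))
    · exact Relation.EqvGen.rel _ _ (Or.inr h)
    · have hm : (if O.up j then (O.lower j, O.upper j) else (O.upper j, O.lower j)) ∈
          O.close.arcs :=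
        List.mem_append_right _ (List.mem_map.2 ⟨j, List.mem_finRange j, rfl⟩)
      by_cases hu : O.up j = true
      · rw [if_pos hu] at hm
        exact Relation.EqvGen.rel _ _ (Or.inl hm)
      · rw [if_neg hu] at hm
        exact Relation.EqvGen.symm _ _ (Relation.EqvGen.rel _ _ (Or.inl hm))
  exact ⟨fun h p q => eqv_le h1 (h p q), fun h p q => eqv_le h2 (h p q)⟩

/-- the transposition -/
def sw (i : ℕ) (h : i + 1 < m) : Equiv.Perm (Fin m) :=
  Equiv.swap (⟨i, Nat.lt_of_succ_lt h⟩ : Fin m) ⟨i + 1, h⟩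

theorem sw_sw (i : ℕ) (h : i + 1 < m) (j : Fin m) : sw i h (sw i h j) = j := by
  unfold sw; simp

theorem conn_virt (O : Outer m) (i : ℕ) (h : i + 1 < m) (π : Equiv.Perm (Fin m))
    (hc : Conn O (π * sw i h)) : Conn (virt O i) π := by
  unfold virt
  rw [dif_pos h]
  intro p q
  refine eqv_le (fun p q hpq => Relation.EqvGen.rel _ _ ?_) (hc p q)
  rcases hpq with hpq | ⟨j, rfl, rfl⟩
  · exact Or.inl hpq
  · refine Or.inr ⟨sw i h j, ?_, rfl⟩
    show O.lower j = O.lower (sw i h (sw i h j))
    rw [sw_sw]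

theorem conn_push (O : Outer m) (pos : Bool) (i : ℕ) (h : i + 1 < m) (π : Equiv.Perm (Fin m))
    (hc : Conn O (π * sw i h)) : Conn (O.push pos i) π := by
  have hdef : O.push pos i =
    { P := O.P ⊕ Fin m
      arcs := O.arcs.map (Prod.map .inl .inl) ++
        ((List.finRange m).filter (fun j => j ≠ ⟨i, Nat.lt_of_succ_lt h⟩ ∧ j ≠ ⟨i+1, h⟩)).map
          (fun j => if O.up j then (.inl (O.lower j), .inr j) else (.inr j, .inl (O.lower j)))
      crossings := O.crossings.map (Crossing.map .inl) ++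
        [O.newCrossing ⟨i, Nat.lt_of_succ_lt h⟩ ⟨i+1, h⟩ pos]
      lower := .inr
      upper := fun j => .inl (O.upper j)
      up := O.up ∘ Equiv.swap ⟨i, Nat.lt_of_succ_lt h⟩ ⟨i+1, h⟩ } := by
    unfold Outer.push
    rw [dif_pos h]
  rw [hdef]
  set O' : Outer m := { P := O.P ⊕ Fin m
                        arcs := O.arcs.map (Prod.map .inl .inl) ++
                          ((List.finRange m).filter (fun j => j ≠ ⟨i, Nat.lt_of_succ_lt h⟩ ∧ j ≠ ⟨i+1, h⟩)).map
                            (fun j => if O.up j then (.inl (O.lower j), .inr j) else (.inr j, .inl (O.lower j)))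
                        crossings := O.crossings.map (Crossing.map .inl) ++
                          [O.newCrossing ⟨i, Nat.lt_of_succ_lt h⟩ ⟨i+1, h⟩ pos]
                        lower := .inr
                        upper := fun j => .inl (O.upper j)
                        up := O.up ∘ Equiv.swap ⟨i, Nat.lt_of_succ_lt h⟩ ⟨i+1, h⟩ } with hO'
  -- the new points
  have key : ∀ j, Relation.EqvGen (St O' π) (.inl (O.lower j)) (.inr (sw i h j)) := by
    intro j
    have hnc : O.newCrossing ⟨i, Nat.lt_of_succ_lt h⟩ ⟨i+1, h⟩ pos ∈ O'.crossings :=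
      List.mem_append_right _ (List.mem_singleton.2 rfl)
    by_cases hj : j = ⟨i, Nat.lt_of_succ_lt h⟩
    · subst hj
      have e : sw i h ⟨i, Nat.lt_of_succ_lt h⟩ = ⟨i+1, h⟩ := by unfold sw; simp
      rw [e]
      cases pos
      · exact Relation.EqvGen.rel _ _ (Or.inl (Or.inr ⟨_, hnc, Or.inl ⟨rfl, rfl⟩⟩))
      · exact Relation.EqvGen.symm _ _ (Relation.EqvGen.rel _ _ (Or.inl (Or.inr ⟨_, hnc, Or.inr ⟨rfl, rfl⟩⟩)))
    · by_cases hj' : j = ⟨i+1, h⟩
      · subst hj'
        have e : sw i h ⟨i+1, h⟩ = ⟨i, Nat.lt_of_succ_lt h⟩ := by unfold sw; simp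
        rw [e]
        cases pos
        · exact Relation.EqvGen.rel _ _ (Or.inl (Or.inr ⟨_, hnc, Or.inr ⟨rfl, rfl⟩⟩))
        · exact Relation.EqvGen.rel _ _ (Or.inl (Or.inr ⟨_, hnc, Or.inl ⟨rfl, rfl⟩⟩))
      · have e : sw i h j = j := Equiv.swap_apply_of_ne_of_ne hj hj'
        rw [e]
        have hm : (if O.up j then ((.inl (O.lower j), .inr j) : (O.P ⊕ Fin m) × (O.P ⊕ Fin m))
            else (.inr j, .inl (O.lower j))) ∈ O'.arcs := by
          refine List.mem_append_right _ (List.mem_map.2 ⟨j, ?_, rfl⟩)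
          rw [List.mem_filter]
          exact ⟨List.mem_finRange j, by simp [hj, hj']⟩
        by_cases hu : O.up j = true
        · rw [if_pos hu] at hm
          exact Relation.EqvGen.rel _ _ (Or.inl (Or.inl hm))
        · rw [if_neg hu] at hm
          exact Relation.EqvGen.symm _ _ (Relation.EqvGen.rel _ _ (Or.inl (Or.inl hm)))
  have key2 : ∀ p q : O.P, Relation.EqvGen (St O' π) (.inl p) (.inl q) := by
    intro p q
    refine eqv_map Sum.inl (fun p q hpq => ?_) (hc p q)
    rcases hpq with (hpq | ⟨x, hx, hpq⟩) | ⟨j, rfl, rfl⟩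
    · refine Relation.EqvGen.rel _ _ (Or.inl (Or.inl (List.mem_append_left _ ?_)))
      exact List.mem_map.2 ⟨(p, q), hpq, rfl⟩
    · refine Relation.EqvGen.rel _ _ (Or.inl (Or.inr ⟨x.map .inl, List.mem_append_left _
        (List.mem_map.2 ⟨x, hx, rfl⟩), ?_⟩))
      rcases hpq with ⟨rfl, rfl⟩ | ⟨rfl, rfl⟩
      · exact Or.inl ⟨rfl, rfl⟩
      · exact Or.inr ⟨rfl, rfl⟩
    · refine (key j).trans _ _ _ (Relation.EqvGen.rel _ _ (Or.inr ⟨sw i h j, rfl, rfl⟩))
  have key3 : ∀ x : O'.P, ∃ p : O.P, Relation.EqvGen (St O' π) x (.inl p) := by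
    intro x
    rcases x with p | j
    · exact ⟨p, Relation.EqvGen.refl _⟩
    · refine ⟨O.lower (sw i h j), ?_⟩
      have := (key (sw i h j)).symm
      rw [sw_sw] at this
      exact this
  intro x y
  obtain ⟨p, hp⟩ := key3 x
  obtain ⟨q, hq⟩ := key3 y
  exact (hp.trans _ _ _ (key2 p q)).trans _ _ _ hq.symm

theorem conn_pushN (O : Outer m) (pos : Bool) (i : ℕ) (h : i + 1 < m) : ∀ (n : ℕ)
    (π : Equiv.Perm (Fin m)), Conn O (π * sw i h ^ n) → Conn (pushN O pos i n) π
  | 0, π, hc => by rw [pow_zero, mul_one] at hc; exact hc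
  | n + 1, π, hc => by
    refine conn_push _ pos i h π (conn_pushN O pos i h n _ ?_)
    rw [mul_assoc, ← pow_succ']
    exact hc

theorem sw_pow (i : ℕ) (h : i + 1 < m) (k : ℕ) : sw i h ^ (2 * k) = 1 := by
  have : sw i h ^ 2 = 1 := by
    rw [pow_two]
    unfold sw
    exact Equiv.swap_mul_self _ _
  rw [pow_mul, this, one_pow]

theorem conn_ins (O : Outer m) (pos : Bool) (i k : ℕ) (h : i + 1 < m) (hc : Conn O 1) :
    Conn (ins O pos i k) 1 := by
  refine conn_pushN _ _ i h _ _ ?_
  rw [sw_pow, mul_one]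
  refine conn_virt _ i h _ (conn_pushN _ _ i h _ _ ?_)
  rw [sw_pow, mul_one, one_mul]
  refine conn_virt _ i h _ ?_
  have : sw i h * sw i h = 1 := by rw [← pow_two]; exact sw_pow i h 1
  rw [this]
  exact hc

end Pool.Agent.K4H9.NJ
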