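import Pool.Agent.K4H9.NJ.Defs

/-! Fox colourings and their behaviour under the moves. -/

set_option autoImplicit false

namespace Pool.Agent.K4H9.NJ

open Pool.Agent.H891R2.Jones

variable {P Q : Type} {R : Type} [CommRing R]

/-- condition of a Fox colouring at a crossing -/
def CrOK (col : P → R) (x : Crossing P) : Prop :=
  col x.b = col x.d ∧ col x.a + col x.c = 2 * col x.b

/-- Fox colouring -/
def IsCol (D : Diagram P) (col : P → R) : Prop :=
  (∀ x ∈ D.arcs, col x.1 = col x.2) ∧ ∀ x ∈ D.crossings, CrOK col x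

theorem CrOK_map (f : P → Q) (col : Q → R) (x : Crossing P) :
    CrOK col (x.map f) ↔ CrOK (col ∘ f) x := Iff.rfl

theorem IsCol_map (f : P → Q) (col : Q → R) (D : Diagram P) :
    IsCol (mapD f D) col ↔ IsCol D (col ∘ f) := by
  unfold IsCol mapD
  simp only [List.forall_mem_map]
  rfl

theorem CrOK_cr (col : P → R) (s : Bool) (o o' u u' : P) :
    CrOK col (cr s o o' u u') ↔ col o = col o' ∧ col u + col u' = 2 * col o := by
  unfold CrOK cr
  cases s
  · simp
  · simp only [if_true]
    constructor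
    · rintro ⟨h1, h2⟩
      exact ⟨h1.symm, by rw [h2, h1]⟩
    · rintro ⟨h1, h2⟩
      exact ⟨h1.symm, by rw [h2, h1]⟩

theorem CrOK_turn (col : P → R) (x : Crossing P) : CrOK col (turn x) ↔ CrOK col x := by
  unfold CrOK turn
  dsimp only
  constructor
  · rintro ⟨h1, h2⟩
    exact ⟨h1.symm, by rw [← h1, ← h2, add_comm]⟩
  · rintro ⟨h1, h2⟩
    exact ⟨h1.symm, by rw [← h1, ← h2, add_comm]⟩

/-- every colouring of `D` gives one of `E` which is nonconstant wherever the given one is -/
def Tr (D : Diagram P) (E : Diagram Q) : Prop :=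
  ∀ (R : Type) [CommRing R] (col : P → R), IsCol D col → ∃ col' : Q → R, IsCol E col' ∧
    ∀ (S : Type) [CommRing S] (φ : R →+* S), (∀ x y, φ (col' x) = φ (col' y)) →
      ∀ x y, φ (col x) = φ (col y)

theorem Tr.trans {P Q Q' : Type} {D : Diagram P} {E : Diagram Q} {F : Diagram Q'} (h1 : Tr D E)
    (h2 : Tr E F) : Tr D F := by
  intro R _ col hc
  obtain ⟨c1, hc1, hs1⟩ := h1 R col hc
  obtain ⟨c2, hc2, hs2⟩ := h2 R c1 hc1
  exact ⟨c2, hc2, fun S _ φ h => hs1 S φ (hs2 S φ h)⟩

theorem Tr.refl (D : Diagram P) : Tr D D := fun _ _ col hc => ⟨col, hc, fun _ _ _ h => h⟩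

/-- a colouring of the same points -/
theorem tr_same {D E : Diagram P} (h : ∀ (R : Type) [CommRing R] (col : P → R), IsCol D col → IsCol E col) :
    Tr D E := fun R _ col hc => ⟨col, h R col hc, fun _ _ _ h => h⟩

theorem tr_iso (e : P ≃ Q) (D : Diagram P) : Tr D (mapD e D) ∧ Tr (mapD e D) D := by
  constructor
  · intro R _ col hc
    refine ⟨col ∘ e.symm, ?_, fun S _ φ h x y => ?_⟩
    · rw [IsCol_map]
      have : (col ∘ e.symm) ∘ e = col := by funext x; simp
      rw [this]
      exact hc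
    · have := h (e x) (e y)
      simpa using this
  · intro R _ col hc
    refine ⟨col ∘ e, (IsCol_map _ _ _).1 hc, fun S _ φ h x y => ?_⟩
    have := h (e.symm x) (e.symm y)
    simpa using this

theorem isCol_perm {A A' : List (P × P)} {C C' : List (Crossing P)} (h1 : A.Perm A') (h2 : C.Perm C')
    (col : P → R) (h : IsCol ⟨A, C⟩ col) : IsCol ⟨A', C'⟩ col :=
  ⟨fun x hx => h.1 x (h1.mem_iff.2 hx), fun x hx => h.2 x (h2.mem_iff.2 hx)⟩

theorem isCol_cons_arc (x : P × P) (A : List (P × P)) (C : List (Crossing P)) (col : P → R) :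
    IsCol ⟨x :: A, C⟩ col ↔ col x.1 = col x.2 ∧ IsCol ⟨A, C⟩ col := by
  unfold IsCol
  simp only [List.forall_mem_cons]
  tauto

theorem isCol_cons_cr (x : Crossing P) (A : List (P × P)) (C : List (Crossing P)) (col : P → R) :
    IsCol ⟨A, x :: C⟩ col ↔ CrOK col x ∧ IsCol ⟨A, C⟩ col := by
  unfold IsCol
  simp only [List.forall_mem_cons]
  tauto

theorem isCol_mk_map (f : P → Q) (A : List (P × P)) (C : List (Crossing P)) (col : Q → R) :
    IsCol ⟨A.map (Prod.map f f), C.map (Crossing.map f)⟩ col ↔ IsCol ⟨A, C⟩ (col ∘ f) :=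
  IsCol_map f col ⟨A, C⟩

theorem tr_contract (p : P) (A : List (Option P × Option P)) (C : List (Crossing (Option P))) :
    Tr (⟨(some p, none) :: A, C⟩ : Diagram (Option P)) (mapD (fun x => x.getD p) ⟨A, C⟩) ∧
      Tr (mapD (fun x => x.getD p) ⟨A, C⟩) (⟨(some p, none) :: A, C⟩ : Diagram (Option P)) := by
  constructor
  · intro R _ col hc
    rw [isCol_cons_arc] at hc
    have e : (col ∘ some) ∘ (fun x : Option P => x.getD p) = col := by
      funext x
      cases x with
      | none => exact hc.1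
      | some x => rfl
    refine ⟨col ∘ some, ?_, fun S _ φ h x y => ?_⟩
    · rw [IsCol_map, e]
      exact hc.2
    · have := h (x.getD p) (y.getD p)
      rw [← e]
      exact this
  · intro R _ col hc
    rw [IsCol_map] at hc
    refine ⟨col ∘ (fun x : Option P => x.getD p), ?_, fun S _ φ h x y => ?_⟩
    · rw [isCol_cons_arc]
      exact ⟨rfl, hc⟩
    · exact h (some x) (some y)

theorem tr_r1 (s : Bool) (p q : P) (A : List (P × P)) (C : List (Crossing P)) (x : Crossing (Option P))
    (hx : x = cr s (some p) none none (some q) ∨ x = cr s none (some q) (some p) none) :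
    Tr ⟨(p, q) :: A, C⟩ (⟨A.map (Prod.map some some), x :: C.map (Crossing.map some)⟩ :
        Diagram (Option P)) ∧
      Tr (⟨A.map (Prod.map some some), x :: C.map (Crossing.map some)⟩ : Diagram (Option P))
        ⟨(p, q) :: A, C⟩ := by
  have key : ∀ (R : Type) [CommRing R] (col : Option P → R), CrOK col x ↔
      col none = col (some p) ∧ col (some p) = col (some q) := by
    intro R _ col
    rcases hx with rfl | rfl
    · rw [CrOK_cr]
      constructor
      · rintro ⟨h1, h2⟩
        refine ⟨h1.symm, ?_⟩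
        linear_combination -h1 - h2
      · rintro ⟨h1, h2⟩
        refine ⟨h1.symm, ?_⟩
        linear_combination h1 - h2
    · rw [CrOK_cr]
      constructor
      · rintro ⟨h1, h2⟩
        refine ⟨by linear_combination -h2, by linear_combination h1 + h2⟩
      · rintro ⟨h1, h2⟩
        refine ⟨by linear_combination h1 + h2, by linear_combination -h1⟩
  constructor
  · intro R _ col hc
    rw [isCol_cons_arc] at hc
    refine ⟨fun y => col (y.getD p), ?_, fun S _ φ h y z => h (some y) (some z)⟩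
    rw [isCol_cons_cr, key, isCol_mk_map]
    exact ⟨⟨rfl, hc.1⟩, hc.2⟩
  · intro R _ col hc
    rw [isCol_cons_cr, key, isCol_mk_map] at hc
    refine ⟨col ∘ some, ?_, fun S _ φ h => ?_⟩
    · rw [isCol_cons_arc]
      exact ⟨hc.1.2, hc.2⟩
    · have h2 : ∀ y, φ (col y) = φ (col (some p)) := by
        intro y
        cases y with
        | none => rw [hc.1.1]
        | some y => exact h y p
      intro y z
      rw [h2 y, h2 z]

theorem tr_r2 (p q r t : P) (A : List (P × P)) (C : List (Crossing P)) (x y : Crossing (P ⊕ Bool))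
    (s : Bool)
    (hx : (x = cr s (.inl p) (.inr false) (.inl r) (.inr true) ∧
        y = cr (!s) (.inr false) (.inl q) (.inr true) (.inl t)) ∨
      (x = cr s (.inl p) (.inr false) (.inr true) (.inl t) ∧
        y = cr (!s) (.inr false) (.inl q) (.inl r) (.inr true))) :
    Tr ⟨(p, q) :: (r, t) :: A, C⟩ (⟨A.map (Prod.map .inl .inl), x :: y :: C.map (Crossing.map .inl)⟩ :
        Diagram (P ⊕ Bool)) ∧
      Tr (⟨A.map (Prod.map .inl .inl), x :: y :: C.map (Crossing.map .inl)⟩ : Diagram (P ⊕ Bool))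
        ⟨(p, q) :: (r, t) :: A, C⟩ := by
  have key : ∀ (R : Type) [CommRing R] (col : P ⊕ Bool → R), (CrOK col x ∧ CrOK col y) ↔
      (col (.inr false) = col (.inl p) ∧ col (.inr true) = 2 * col (.inl p) - col (.inl r)) ∧
      (col (.inl p) = col (.inl q) ∧ col (.inl r) = col (.inl t)) := by
    intro R _ col
    rcases hx with ⟨rfl, rfl⟩ | ⟨rfl, rfl⟩
    · rw [CrOK_cr, CrOK_cr]
      constructor
      · rintro ⟨⟨h1, h2⟩, h3, h4⟩
        refine ⟨⟨h1.symm, by linear_combination h2⟩, by linear_combination h1 + h3, ?_⟩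
        linear_combination h2 - h4 + 2 * h1
      · rintro ⟨⟨h1, h2⟩, h3, h4⟩
        refine ⟨⟨h1.symm, by linear_combination h2⟩, by linear_combination h1 + h3, ?_⟩
        linear_combination h2 - h4 - 2 * h1
    · rw [CrOK_cr, CrOK_cr]
      constructor
      · rintro ⟨⟨h1, h2⟩, h3, h4⟩
        refine ⟨⟨h1.symm, by linear_combination h4 - 2 * h1⟩, by linear_combination h1 + h3, ?_⟩
        linear_combination h4 - h2 - 2 * h1
      · rintro ⟨⟨h1, h2⟩, h3, h4⟩
        refine ⟨⟨h1.symm, by linear_combination h2 - h4⟩, by linear_combination h1 + h3, ?_⟩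
        linear_combination h2 - 2 * h1
  have key2 : ∀ (R : Type) [CommRing R] (col : P ⊕ Bool → R),
      IsCol (⟨A.map (Prod.map .inl .inl), x :: y :: C.map (Crossing.map .inl)⟩ : Diagram (P ⊕ Bool))
        col ↔ ((col (.inr false) = col (.inl p) ∧ col (.inr true) = 2 * col (.inl p) - col (.inl r)) ∧
      (col (.inl p) = col (.inl q) ∧ col (.inl r) = col (.inl t))) ∧ IsCol ⟨A, C⟩ (col ∘ .inl) := by
    intro R _ col
    rw [isCol_cons_cr, isCol_cons_cr, isCol_mk_map, ← key]
    tauto
  constructor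
  · intro R _ col hc
    rw [isCol_cons_arc, isCol_cons_arc] at hc
    refine ⟨Sum.elim col (fun b => if b then 2 * col p - col r else col p), ?_,
      fun S _ φ h y z => h (.inl y) (.inl z)⟩
    rw [key2]
    exact ⟨⟨⟨rfl, rfl⟩, hc.1, hc.2.1⟩, hc.2.2⟩
  · intro R _ col hc
    rw [key2] at hc
    obtain ⟨⟨⟨h1, h2⟩, h3, h4⟩, h5⟩ := hc
    refine ⟨col ∘ .inl, ?_, fun S _ φ h => ?_⟩
    · rw [isCol_cons_arc, isCol_cons_arc]
      exact ⟨h3, h4, h5⟩
    · have h6 : ∀ y, φ (col y) = φ (col (.inl p)) := by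
        intro y
        rcases y with y | _ | _
        · exact h y p
        · rw [h1]
        · rw [h2, map_sub, map_mul]
          have := h r p
          simp only [Function.comp_apply] at this
          rw [this]
          simp only [map_ofNat]
          ring
      intro y z
      rw [h6 y, h6 z]

theorem isCol_append (X C : List (Crossing P)) (A : List (P × P)) (col : P → R) :
    IsCol ⟨A, X ++ C⟩ col ↔ (∀ x ∈ X, CrOK col x) ∧ IsCol ⟨A, C⟩ col := by
  unfold IsCol
  simp only [List.forall_mem_append]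
  tauto

/-- the new colours in a triangle -/
def flipT (col : P ⊕ Fin 3 → R) : P ⊕ Fin 3 → R
  | .inl x => col (.inl x)
  | .inr i => if i = 0 then col (.inr 0) else if i = 1 then 2 * col (.inr 0) - col (.inr 1) else
      col (.inr 2) + 2 * col (.inr 0) - 2 * col (.inr 1)

theorem tri_col (ot om ob s1 s2 s3 : Bool) (t0 t2 m0 m2 b0 b2 : P) (col : P ⊕ Fin 3 → R) :
    (∀ x ∈ tri ot om ob s1 s2 s3 (pts t0 t2 0) (pts m0 m2 1) (pts b0 b2 2), CrOK col x) ↔
      (col (.inl t0) = col (.inr 0) ∧ col (.inr 0) = col (.inl t2)) ∧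
      (if om then col (.inl m0) + col (.inr 1) = 2 * col (.inr 0) ∧ col (.inr 1) = col (.inl m2)
        else col (.inl m0) = col (.inr 1) ∧ col (.inr 1) + col (.inl m2) = 2 * col (.inr 0)) ∧
      (if ob then col (.inl b0) + col (.inr 2) = 2 * col (.inr 0) ∧
          col (.inr 2) + col (.inl b2) = 2 * col (.inr 1)
        else col (.inl b0) + col (.inr 2) = 2 * col (.inr 1) ∧
          col (.inr 2) + col (.inl b2) = 2 * col (.inr 0)) := by
  unfold tri crs
  simp only [List.forall_mem_cons, CrOK_cr, List.not_mem_nil, false_imp_iff, implies_true, and_true]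
  have e0 : pts t0 t2 0 0 = .inl t0 := rfl
  have e1 : pts t0 t2 0 1 = .inr 0 := rfl
  have e2 : pts t0 t2 0 2 = .inl t2 := rfl
  have e3 : pts m0 m2 1 0 = .inl m0 := rfl
  have e4 : pts m0 m2 1 1 = .inr 1 := rfl
  have e5 : pts m0 m2 1 2 = .inl m2 := rfl
  have e6 : pts b0 b2 2 0 = .inl b0 := rfl
  have e7 : pts b0 b2 2 1 = .inr 2 := rfl
  have e8 : pts b0 b2 2 2 = .inl b2 := rfl
  cases ot <;> cases om <;> cases ob <;>
    simp only [seg, e0, e1, e2, e3, e4, e5, e6, e7, e8, Bool.not_true, Bool.not_false, if_true,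
      if_false, Bool.false_eq_true] <;>
    generalize col (.inl t0) = T0 <;> generalize col (.inr 0) = T1 <;>
    generalize col (.inl t2) = T2 <;> generalize col (.inl m0) = M0 <;>
    generalize col (.inr 1) = M1 <;> generalize col (.inl m2) = M2 <;>
    constructor <;> rintro ⟨⟨h1, h2⟩, ⟨h3, h4⟩, h5, h6⟩ <;> simp_all

theorem isCol_tri (ot om ob s1 s2 s3 : Bool) (t0 t2 m0 m2 b0 b2 : P) (A : List (P × P))
    (C : List (Crossing P)) (col : P ⊕ Fin 3 → R)
    (h : IsCol (⟨A.map (Prod.map .inl .inl),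
          tri ot om ob s1 s2 s3 (pts t0 t2 0) (pts m0 m2 1) (pts b0 b2 2) ++
            C.map (Crossing.map .inl)⟩ : Diagram (P ⊕ Fin 3)) col) :
    IsCol (⟨A.map (Prod.map .inl .inl),
          tri (!ot) (!om) (!ob) s1 s2 s3 (pts t0 t2 0) (pts m0 m2 1) (pts b0 b2 2) ++
            C.map (Crossing.map .inl)⟩ : Diagram (P ⊕ Fin 3)) (flipT col) := by
  rw [isCol_append, isCol_mk_map] at h ⊢
  obtain ⟨h1, h2⟩ := h
  refine ⟨?_, h2⟩
  rw [tri_col] at h1 ⊢
  obtain ⟨⟨h3, h4⟩, h5, h6⟩ := h1
  have e0 : flipT col (.inr 0) = col (.inr 0) := rfl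
  have e1 : flipT col (.inr 1) = 2 * col (.inr 0) - col (.inr 1) := rfl
  have e2 : flipT col (.inr 2) = col (.inr 2) + 2 * col (.inr 0) - 2 * col (.inr 1) := rfl
  have e3 : ∀ x, flipT col (.inl x) = col (.inl x) := fun _ => rfl
  rw [e0, e1, e2]
  simp only [e3]
  refine ⟨⟨h3, h4⟩, ?_, ?_⟩
  · cases om
    · simp only [Bool.not_false, if_true, Bool.false_eq_true, if_false] at h5 ⊢
      exact ⟨by linear_combination h5.1, by linear_combination -h5.2⟩
    · simp only [Bool.not_true, if_true, Bool.false_eq_true, if_false] at h5 ⊢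
      exact ⟨by linear_combination h5.1, by linear_combination -h5.2⟩
  · cases ob
    · simp only [Bool.not_false, if_true, Bool.false_eq_true, if_false] at h6 ⊢
      exact ⟨by linear_combination h6.1, by linear_combination h6.2⟩
    · simp only [Bool.not_true, if_true, Bool.false_eq_true, if_false] at h6 ⊢
      exact ⟨by linear_combination h6.1, by linear_combination h6.2⟩

theorem flipT_const {S : Type} [CommRing S] (col : P ⊕ Fin 3 → R) (φ : R →+* S)
    (h : ∀ x y, φ (flipT col x) = φ (flipT col y)) :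
    ∀ x y, φ (col x) = φ (col y) := by
  have e1 : flipT col (.inr 1) = 2 * col (.inr 0) - col (.inr 1) := rfl
  have e2 : flipT col (.inr 2) = col (.inr 2) + 2 * col (.inr 0) - 2 * col (.inr 1) := rfl
  have h1 : ∀ x, φ (col x) = φ (col (.inr 0)) := by
    have a1 : φ (col (.inr 1)) = φ (col (.inr 0)) := by
      have := h (.inr 1) (.inr 0)
      rw [e1] at this
      have e0 : flipT col (.inr 0) = col (.inr 0) := rfl
      rw [e0, map_sub, map_mul, map_ofNat] at this
      linear_combination -this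
    intro x
    rcases x with x | i
    · exact h (.inl x) (.inr 0)
    · fin_cases i
      · rfl
      · exact a1
      · have := h (.inr 2) (.inr 0)
        have e0 : flipT col (.inr 0) = col (.inr 0) := rfl
        rw [e2, e0, map_sub, map_add, map_mul, map_mul, map_ofNat, a1] at this
        show φ (col (.inr 2)) = _
        linear_combination this
  intro x y
  rw [h1 x, h1 y]

theorem tr_r3 (ot om ob s1 s2 s3 : Bool) (t0 t2 m0 m2 b0 b2 : P) (A : List (P × P))
    (C : List (Crossing P)) :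
    Tr (⟨A.map (Prod.map .inl .inl),
          tri ot om ob s1 s2 s3 (pts t0 t2 0) (pts m0 m2 1) (pts b0 b2 2) ++
            C.map (Crossing.map .inl)⟩ : Diagram (P ⊕ Fin 3))
      (⟨A.map (Prod.map .inl .inl),
          tri (!ot) (!om) (!ob) s1 s2 s3 (pts t0 t2 0) (pts m0 m2 1) (pts b0 b2 2) ++
            C.map (Crossing.map .inl)⟩ : Diagram (P ⊕ Fin 3)) := by
  intro R _ col hc
  refine ⟨flipT col, isCol_tri _ _ _ _ _ _ _ _ _ _ _ _ _ _ _ hc, fun S _ φ h => ?_⟩
  exact flipT_const col φ h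

theorem tr_move {X Y : VD} (h : Move X Y) : Tr X.D Y.D ∧ Tr Y.D X.D := by
  cases h with
  | iso e D => exact tr_iso e D
  | perm h1 h2 =>
    exact ⟨tr_same fun R _ col hc => isCol_perm h1 h2 col hc,
      tr_same fun R _ col hc => isCol_perm h1.symm h2.symm col hc⟩
  | turn A x C =>
    constructor
    · refine tr_same fun R _ col hc => ?_
      rw [isCol_cons_cr] at hc ⊢
      exact ⟨(CrOK_turn _ _).2 hc.1, hc.2⟩
    · refine tr_same fun R _ col hc => ?_
      rw [isCol_cons_cr] at hc ⊢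
      exact ⟨(CrOK_turn _ _).1 hc.1, hc.2⟩
  | contract p A C => exact tr_contract p A C
  | r1 s p q A C => exact tr_r1 s p q A C _ (Or.inl rfl)
  | r1' s p q A C => exact tr_r1 s p q A C _ (Or.inr rfl)
  | r2 s p q r t A C => exact tr_r2 p q r t A C _ _ s (Or.inl ⟨rfl, rfl⟩)
  | r2' s p q r t A C => exact tr_r2 p q r t A C _ _ s (Or.inr ⟨rfl, rfl⟩)
  | r3 ot om ob s1 s2 s3 h1 h3 t0 t2 m0 m2 b0 b2 A C =>
    refine ⟨tr_r3 ot om ob s1 s2 s3 t0 t2 m0 m2 b0 b2 A C, ?_⟩
    have := tr_r3 (!ot) (!om) (!ob) s1 s2 s3 t0 t2 m0 m2 b0 b2 A C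
    simp only [Bool.not_not] at this
    exact this

theorem tr_eqv {X Y : VD} (h : Relation.EqvGen Move X Y) : Tr X.D Y.D ∧ Tr Y.D X.D := by
  induction h with
  | rel X Y h => exact tr_move h
  | refl X => exact ⟨Tr.refl _, Tr.refl _⟩
  | symm X Y _ ih => exact ⟨ih.2, ih.1⟩
  | trans X Y Z _ _ ih1 ih2 => exact ⟨ih1.1.trans ih2.1, ih2.2.trans ih1.2⟩

end Pool.Agent.K4H9.NJ
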