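import Pool.Agent.K4H9.NJ.Stm

/-!
# Numberings and inserted twists
-/

set_option autoImplicit false

namespace Pool.Agent.K4H9.NJ

open Pool.Agent.H891R2.Jones

/-! ### numberings -/

/-- The number of the region next to a strand with number `l` at a crossing, on the side following the
strand in counterclockwise direction around the crossing; `out`: the strand leaves the crossing.  (The
region on the left of a strand with number `l` has the number `l`, the region on its right has the
number `l - 1`.) -/
def ccw (out : Bool) (l : ℤ) : ℤ := if out then l else l - 1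

/-- the same for the region in clockwise direction -/
def cw (out : Bool) (l : ℤ) : ℤ := if out then l - 1 else l

/-- the numbers of the four regions at a crossing are well defined -/
def Corners {P : Type} (l : P → ℤ) (x : Crossing P) : Prop :=
  ccw (!x.underFwd) (l x.a) = cw (!x.overFwd) (l x.b) ∧
  ccw (!x.overFwd) (l x.b) = cw x.underFwd (l x.c) ∧
  ccw x.underFwd (l x.c) = cw x.overFwd (l x.d) ∧
  ccw x.overFwd (l x.d) = cw (!x.underFwd) (l x.a)

/-- `l` is an Alexander numbering of the diagram -/
def IsNumbering {P : Type} (D : Diagram P) (l : P → ℤ) : Prop :=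
  (∀ x ∈ D.arcs, l x.1 = l x.2) ∧ ∀ x ∈ D.crossings, Corners l x

theorem null_of_num {P : Type} (D : Diagram P) (l : P → ℤ) (hl : IsNumbering D l) :
    NullHomologous D := by
  refine ⟨fun s => if s.2 then l s.1 else l s.1 - 1, ?_, fun p => by simp⟩
  rintro s t (⟨x, hx, b, rfl, rfl⟩ | ⟨x, hx, h⟩)
  · have := hl.1 x hx
    cases b <;> simp [this]
  · have := hl.2 x hx
    unfold Corners ccw cw at this
    obtain ⟨h1, h2, h3, h4⟩ := this
    rcases h with ⟨rfl, rfl⟩ | ⟨rfl, rfl⟩ | ⟨rfl, rfl⟩ | ⟨rfl, rfl⟩
    · revert h1
      cases x.underFwd <;> cases x.overFwd <;> simp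
    · revert h2
      cases x.underFwd <;> cases x.overFwd <;> simp
    · revert h3
      cases x.underFwd <;> cases x.overFwd <;> simp
    · revert h4
      cases x.underFwd <;> cases x.overFwd <;> simp

/-! ### inserted twists -/

variable {m : ℕ}

/-- draw a virtual crossing between the strands at the places `i` and `i + 1` at the lower side of the
open part of the box: the two strands change their places -/
def virt (O : Outer m) (i : ℕ) : Outer m :=
  if h : i + 1 < m then
    { P := O.P
      arcs := O.arcs
      crossings := O.crossings
      lower := O.lower ∘ Equiv.swap (⟨i, Nat.lt_of_succ_lt h⟩ : Fin m) ⟨i + 1, h⟩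
      upper := O.upper
      up := O.up ∘ Equiv.swap (⟨i, Nat.lt_of_succ_lt h⟩ : Fin m) ⟨i + 1, h⟩ }
  else O

/-- draw `n` crossings of the same kind between the strands at the places `i` and `i + 1` -/
def pushN (O : Outer m) (pos : Bool) (i : ℕ) : ℕ → Outer m
  | 0 => O
  | n + 1 => (pushN O pos i n).push pos i

/-- draw `v_i s_i^{2k} v_i s_i^{-2k}` (`pos = true`) or `v_i s_i^{-2k} v_i s_i^{2k}` (`pos = false`) in
the box, `v_i` a virtual crossing: `2k` crossings flanked by two virtual ones, followed by the `2k`
crossings of the other kind -/
def ins (O : Outer m) (pos : Bool) (i k : ℕ) : Outer m :=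
  pushN (virt (pushN (virt O i) pos i (2 * k)) i) (!pos) i (2 * k)

/-- The outside of a box with three strands, directed upwards, downwards and upwards: the upper end of
the third strand and the lower end of the first strand are joined (marked point `0`), and so are the
lower ends of the second and the third strand (marked point `1`) and the upper ends of the first and the
second strand (marked point `2`). -/
def base : Outer 3 where
  P := Fin 3
  arcs := []
  crossings := []
  lower := ![0, 1, 1]
  upper := ![2, 2, 0]
  up := ![true, false, true]

/-- the knot diagrams `W k n`, `k, n ≥ 1`, with `4 k + 2 n` crossings: `s_0^{-2n} v_1 s_1^{2k} v_1 s_1^{-2k}`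
drawn in the box of `base` -/
def W (k n : ℕ) : Diagram (ins (pushN base false 0 (2 * n)) true 1 k).P :=
  (ins (pushN base false 0 (2 * n)) true 1 k).close

end Pool.Agent.K4H9.NJ
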