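import Pool.Agent.K4H9.NJ.Clo
import Pool.Agent.K4H9.NJ.Col

/-! Numberings and colourings of the diagrams with inserted twists. -/

set_option autoImplicit false

namespace Pool.Agent.K4H9.NJ

open Pool.Agent.H891R2.Jones

variable {m : ℕ}

/-- the first of the two places -/
def pl (i : ℕ) (h : i + 1 < m) : Fin m := ⟨i, Nat.lt_of_succ_lt h⟩

/-- the second of the two places -/
def pr (i : ℕ) (h : i + 1 < m) : Fin m := ⟨i + 1, h⟩

theorem pl_ne_pr (i : ℕ) (h : i + 1 < m) : pl i h ≠ pr i h := by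
  unfold pl pr
  intro e
  have := Fin.mk.inj e
  omega

/-- the new diagram, without the case distinction -/
def pushD (O : Outer m) (pos : Bool) (i : ℕ) (h : i + 1 < m) : Outer m :=
  { P := O.P ⊕ Fin m
    arcs := O.arcs.map (Prod.map .inl .inl) ++
      ((List.finRange m).filter (fun j => j ≠ ⟨i, Nat.lt_of_succ_lt h⟩ ∧ j ≠ ⟨i+1, h⟩)).map
        (fun j => if O.up j then (.inl (O.lower j), .inr j) else (.inr j, .inl (O.lower j)))
    crossings := O.crossings.map (Crossing.map .inl) ++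
      [O.newCrossing ⟨i, Nat.lt_of_succ_lt h⟩ ⟨i+1, h⟩ pos]
    lower := .inr
    upper := fun j => .inl (O.upper j)
    up := O.up ∘ Equiv.swap ⟨i, Nat.lt_of_succ_lt h⟩ ⟨i+1, h⟩ }

theorem push_eq (O : Outer m) (pos : Bool) (i : ℕ) (h : i + 1 < m) :
    O.push pos i = pushD O pos i h := by
  unfold Outer.push
  rw [dif_pos h]
  rfl

def virtD (O : Outer m) (i : ℕ) (h : i + 1 < m) : Outer m :=
  { P := O.P
    arcs := O.arcs
    crossings := O.crossings
    lower := O.lower ∘ Equiv.swap (⟨i, Nat.lt_of_succ_lt h⟩ : Fin m) ⟨i + 1, h⟩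
    upper := O.upper
    up := O.up ∘ Equiv.swap (⟨i, Nat.lt_of_succ_lt h⟩ : Fin m) ⟨i + 1, h⟩ }

theorem virt_eq (O : Outer m) (i : ℕ) (h : i + 1 < m) : virt O i = virtD O i h := by
  unfold virt
  rw [dif_pos h]
  rfl

theorem pushD_arcs {V : Type} (O : Outer m) (pos : Bool) (i : ℕ) (h : i + 1 < m)
    (f : O.P ⊕ Fin m → V) :
    (∀ x ∈ (pushD O pos i h).arcs, f x.1 = f x.2) ↔
      (∀ x ∈ O.arcs, f (.inl x.1) = f (.inl x.2)) ∧
        ∀ j, j ≠ pl i h → j ≠ pr i h → f (.inl (O.lower j)) = f (.inr j) := by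
  constructor
  · intro hf
    constructor
    · intro x hx
      exact hf (.inl x.1, .inl x.2) (List.mem_append_left _ (List.mem_map.2 ⟨x, hx, rfl⟩))
    · intro j hj hj'
      have hm : (if O.up j then ((.inl (O.lower j), .inr j) : (O.P ⊕ Fin m) × (O.P ⊕ Fin m))
            else (.inr j, .inl (O.lower j))) ∈ (pushD O pos i h).arcs := by
        refine List.mem_append_right _ (List.mem_map.2 ⟨j, ?_, rfl⟩)
        rw [List.mem_filter]
        exact ⟨List.mem_finRange j, by
          rw [decide_eq_true_iff]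
          exact ⟨hj, hj'⟩⟩
      by_cases hu : O.up j = true
      · rw [if_pos hu] at hm
        exact hf _ hm
      · rw [if_neg hu] at hm
        exact (hf _ hm).symm
  · rintro ⟨h1, h2⟩ x hx
    rcases List.mem_append.1 hx with hx' | hx'
    · obtain ⟨y, hy, rfl⟩ := List.mem_map.1 hx'
      exact h1 y hy
    · obtain ⟨j, hj, rfl⟩ := List.mem_map.1 hx'
      rw [List.mem_filter, decide_eq_true_iff] at hj
      split_ifs
      · exact h2 j hj.2.1 hj.2.2
      · exact (h2 j hj.2.1 hj.2.2).symm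

theorem pushD_crossings (O : Outer m) (pos : Bool) (i : ℕ) (h : i + 1 < m)
    (K : Crossing (O.P ⊕ Fin m) → Prop) :
    (∀ x ∈ (pushD O pos i h).crossings, K x) ↔
      (∀ x ∈ O.crossings, K (x.map .inl)) ∧ K (O.newCrossing (pl i h) (pr i h) pos) := by
  show (∀ x ∈ O.crossings.map (Crossing.map .inl) ++
      [O.newCrossing ⟨i, Nat.lt_of_succ_lt h⟩ ⟨i+1, h⟩ pos], K x) ↔ _
  rw [List.forall_mem_append, List.forall_mem_map, List.forall_mem_singleton]
  rfl

/-! ### numberings -/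

/-- numbering of the outer part -/
def NumO (O : Outer m) (l : O.P → ℤ) : Prop :=
  (∀ x ∈ O.arcs, l x.1 = l x.2) ∧ ∀ x ∈ O.crossings, Corners l x

def NSt (O : Outer m) (p q : Fin m) (z y : Fin m → ℤ) (c : ℤ) (u : Bool) : Prop :=
  ∃ l : O.P → ℤ, NumO O l ∧ (∀ j, l (O.upper j) = z j) ∧
    (∀ j, l (O.lower j) = if j = p ∨ j = q then c else y j) ∧ O.up p = u ∧ O.up q = !u

/-- the change of the number -/
def stp (u : Bool) (c : ℤ) : ℤ := if u then c + 1 else c - 1

theorem stp_stp (u : Bool) (c : ℤ) : stp (!u) (stp u c) = c := by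
  cases u <;> simp [stp]

theorem nst_push (O : Outer m) (pos : Bool) (i : ℕ) (h : i + 1 < m) (z y : Fin m → ℤ) (c : ℤ)
    (u : Bool) (hN : NSt O (pl i h) (pr i h) z y c u) :
    NSt (O.push pos i) (pl i h) (pr i h) z y (stp u c) (!u) := by
  obtain ⟨l, hl, hz, hy, hp, hq⟩ := hN
  rw [push_eq O pos i h]
  refine ⟨Sum.elim l (fun j => if j = pl i h ∨ j = pr i h then stp u c else y j), ⟨?_, ?_⟩,
    hz, fun j => rfl, ?_, ?_⟩
  · refine (pushD_arcs O pos i h _).2 ⟨hl.1, fun j hj hj' => ?_⟩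
    simp only [Sum.elim_inl, Sum.elim_inr]
    rw [hy j, if_neg (by tauto), if_neg (by tauto)]
  · refine (pushD_crossings O pos i h (fun x => Corners _ x)).2 ⟨hl.2, ?_⟩
    have e1 := hy (pl i h)
    have e2 := hy (pr i h)
    rw [if_pos (Or.inl rfl)] at e1
    rw [if_pos (Or.inr rfl)] at e2
    cases pos <;> cases u <;>
      simp [Corners, Outer.newCrossing, e1, e2, hp, hq, ccw, cw, stp]
  · show O.up (Equiv.swap (pl i h) (pr i h) (pl i h)) = !u
    rw [Equiv.swap_apply_left, hq]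
  · show O.up (Equiv.swap (pl i h) (pr i h) (pr i h)) = !!u
    rw [Equiv.swap_apply_right, hp, Bool.not_not]

theorem nst_virt (O : Outer m) (i : ℕ) (h : i + 1 < m) (z y : Fin m → ℤ) (c : ℤ)
    (u : Bool) (hN : NSt O (pl i h) (pr i h) z y c u) :
    NSt (virt O i) (pl i h) (pr i h) z y c (!u) := by
  obtain ⟨l, hl, hz, hy, hp, hq⟩ := hN
  rw [virt_eq O i h]
  refine ⟨l, hl, hz, fun j => ?_, ?_, ?_⟩
  · show l (O.lower (Equiv.swap (pl i h) (pr i h) j)) = _
    rw [hy]
    by_cases h1 : j = pl i h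
    · rw [h1, Equiv.swap_apply_left, if_pos (Or.inr rfl), if_pos (Or.inl rfl)]
    · by_cases h2 : j = pr i h
      · rw [h2, Equiv.swap_apply_right, if_pos (Or.inl rfl), if_pos (Or.inr rfl)]
      · rw [Equiv.swap_apply_of_ne_of_ne h1 h2]
  · show O.up (Equiv.swap (pl i h) (pr i h) (pl i h)) = !u
    rw [Equiv.swap_apply_left, hq]
  · show O.up (Equiv.swap (pl i h) (pr i h) (pr i h)) = !!u
    rw [Equiv.swap_apply_right, hp, Bool.not_not]

theorem nst_pushN (O : Outer m) (pos : Bool) (i : ℕ) (h : i + 1 < m) (z y : Fin m → ℤ) (c : ℤ)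
    (u : Bool) (hN : NSt O (pl i h) (pr i h) z y c u) : ∀ k,
    NSt (pushN O pos i (2 * k)) (pl i h) (pr i h) z y c u
  | 0 => hN
  | k + 1 => by
    have := nst_push _ pos i h z y _ _ (nst_push _ pos i h z y c u (nst_pushN O pos i h z y c u hN k))
    rw [stp_stp, Bool.not_not] at this
    exact this

theorem nst_ins (O : Outer m) (pos : Bool) (i k : ℕ) (h : i + 1 < m) (z y : Fin m → ℤ) (c : ℤ)
    (u : Bool) (hN : NSt O (pl i h) (pr i h) z y c u) :
    NSt (ins O pos i k) (pl i h) (pr i h) z y c u := by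
  have := nst_pushN _ (!pos) i h z y _ _ (nst_virt _ i h z y _ _ (nst_pushN _ pos i h z y _ _
    (nst_virt O i h z y c u hN) k)) k
  rw [Bool.not_not] at this
  exact this

theorem close_arcs {V : Type} (O : Outer m) (f : O.P → V) :
    (∀ x ∈ O.close.arcs, f x.1 = f x.2) ↔
      (∀ x ∈ O.arcs, f x.1 = f x.2) ∧ ∀ j, f (O.lower j) = f (O.upper j) := by
  constructor
  · intro hf
    refine ⟨fun x hx => hf x (List.mem_append_left _ hx), fun j => ?_⟩
    have hm : (if O.up j then (O.lower j, O.upper j) else (O.upper j, O.lower j)) ∈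
        O.close.arcs :=
      List.mem_append_right _ (List.mem_map.2 ⟨j, List.mem_finRange j, rfl⟩)
    by_cases hu : O.up j = true
    · rw [if_pos hu] at hm
      exact hf _ hm
    · rw [if_neg hu] at hm
      exact (hf _ hm).symm
  · rintro ⟨h1, h2⟩ x hx
    have hx' : x ∈ O.arcs ++ (List.finRange m).map (fun j =>
        if O.up j then (O.lower j, O.upper j) else (O.upper j, O.lower j)) := hx
    rw [List.mem_append, List.mem_map] at hx'
    rcases hx' with hx' | ⟨j, _, rfl⟩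
    · exact h1 x hx'
    · split_ifs
      · exact h2 j
      · exact (h2 j).symm

theorem num_close (O : Outer m) (l : O.P → ℤ) :
    IsNumbering O.close l ↔ NumO O l ∧ ∀ j, l (O.lower j) = l (O.upper j) := by
  unfold IsNumbering NumO
  rw [close_arcs]
  constructor
  · rintro ⟨⟨h1, h2⟩, h3⟩
    exact ⟨⟨h1, h3⟩, h2⟩
  · rintro ⟨⟨h1, h3⟩, h2⟩
    exact ⟨⟨h1, h2⟩, h3⟩

theorem nst_of_num (O : Outer m) (i : ℕ) (h : i + 1 < m) (l : O.P → ℤ) (hl : IsNumbering O.close l)
    (hlo : l (O.lower (pl i h)) = l (O.lower (pr i h))) (hu : O.up (pl i h) ≠ O.up (pr i h)) :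
    NSt O (pl i h) (pr i h) (fun j => l (O.upper j)) (fun j => l (O.upper j))
      (l (O.upper (pl i h))) (O.up (pl i h)) ∧ l (O.upper (pl i h)) = l (O.upper (pr i h)) := by
  rw [num_close] at hl
  refine ⟨⟨l, hl.1, fun _ => rfl, fun j => ?_, rfl, ?_⟩, ?_⟩
  · split_ifs with hj
    · rcases hj with rfl | rfl
      · exact hl.2 _
      · rw [← hlo]
        exact hl.2 _
    · exact hl.2 j
  · revert hu
    cases O.up (pl i h) <;> cases O.up (pr i h) <;> simp
  · rw [← hl.2, ← hl.2, hlo]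

theorem num_of_nst (O : Outer m) (p q : Fin m) (z : Fin m → ℤ) (u : Bool) (hz : z p = z q)
    (hN : NSt O p q z z (z p) u) : NullHomologous O.close := by
  obtain ⟨l, hl, hz', hy, -, -⟩ := hN
  refine null_of_num _ l ((num_close O l).2 ⟨hl, fun j => ?_⟩)
  rw [hy, hz']
  split_ifs with hj
  · rcases hj with rfl | rfl
    · rfl
    · exact hz
  · rfl

theorem num_ins (O : Outer m) (pos : Bool) (i k : ℕ) (h : i + 1 < m) (l : O.P → ℤ)
    (hl : IsNumbering O.close l)
    (hlo : l (O.lower (pl i h)) = l (O.lower (pr i h))) (hu : O.up (pl i h) ≠ O.up (pr i h)) :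
    NullHomologous (ins O pos i k).close := by
  obtain ⟨h1, h2⟩ := nst_of_num O i h l hl hlo hu
  exact num_of_nst _ (pl i h) (pr i h) _ _ h2 (nst_ins O pos i k h _ _ _ _ h1)

end Pool.Agent.K4H9.NJ
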