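import Pool.Agent.K4H9.NJ.WCol

/-! The theorem. -/

set_option autoImplicit false

namespace Pool.Agent.K4H9.NJ

open Pool.Agent.H891R2.Jones

variable {m : ℕ}

theorem knot_ins (O : Outer m) (pos : Bool) (i k : ℕ) (h : i + 1 < m) (hO : IsKnot O.close) :
    IsKnot (ins O pos i k).close :=
  ⟨ins_closed O pos i k h hO.1, (conn_close _).2 (conn_ins O pos i k h ((conn_close _).1 hO.2))⟩

theorem base_closed : base.close.IsClosed := by
  intro p
  have : ∀ p : Fin 3, base.close.starts.count p = 1 ∧ base.close.ends.count p = 1 := by decide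
  exact this p

theorem base_conn : Conn base 1 := by
  have e0 : Relation.EqvGen (St base 1) (0 : Fin 3) (2 : Fin 3) :=
    Relation.EqvGen.rel _ _ (Or.inr ⟨(0 : Fin 3), rfl, rfl⟩)
  have e1 : Relation.EqvGen (St base 1) (1 : Fin 3) (2 : Fin 3) :=
    Relation.EqvGen.rel _ _ (Or.inr ⟨(1 : Fin 3), rfl, rfl⟩)
  have e2 : ∀ p : Fin 3, Relation.EqvGen (St base 1) p (2 : Fin 3) := by
    intro p
    fin_cases p
    · exact e0
    · exact e1
    · exact Relation.EqvGen.refl _
  intro p q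
  exact (e2 p).trans _ _ _ (e2 q).symm

theorem base_push_knot (n : ℕ) : IsKnot (pushN base false 0 (2 * n)).close := by
  refine ⟨pushN_closed base false 0 n (by norm_num) base_closed, (conn_close _).2 ?_⟩
  refine conn_pushN base false 0 (by norm_num) _ _ ?_
  rw [sw_pow, mul_one]
  exact base_conn

theorem W_knot (k n : ℕ) : IsKnot (W k n) :=
  knot_ins _ true 1 k (by norm_num) (base_push_knot n)

theorem W_num (k n : ℕ) : NullHomologous (W k n) := by
  have h0 : 0 + 1 < 3 := by norm_num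
  have h1 : 1 + 1 < 3 := by norm_num
  have e : NSt base (pl 0 h0) (pr 0 h0) (fun _ => 0) (fun _ => 0) 0 true :=
    ⟨fun _ => 0, ⟨fun _ hx => absurd hx List.not_mem_nil, fun _ hx => absurd hx List.not_mem_nil⟩,
      fun _ => rfl, fun j => by split_ifs <;> rfl, rfl, rfl⟩
  obtain ⟨l, hl, hz, hy, hp, hq⟩ := nst_pushN base false 0 h0 _ _ _ _ e n
  have hy' : ∀ j, l ((pushN base false 0 (2 * n)).lower j) = 0 := by
    intro j
    rw [hy j]
    split_ifs <;> rfl
  refine num_ins _ true 1 k h1 l ((num_close _ _).2 ⟨hl, fun j => by rw [hy', hz]⟩) ?_ ?_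
  · rw [hy', hy']
  · rw [pushN_up base false 0 n h0]
    exact (by decide : (false : Bool) ≠ true)

/-- the transfer of colourings to a quotient ring -/
theorem W_tr (k n k' n' : ℕ) (h : Tr (W k n) (W k' n')) :
    ((8 * k' * n' : ℕ) - 1 : ZMod (8 * k * n - 1)) = 0 ∨ 8 * k * n = 0 := by
  by_cases h0 : 8 * k * n = 0
  · exact Or.inr h0
  left
  have hR : ((8 * k * n : ℕ) - 1 : ZMod (8 * k * n - 1)) = 0 := by
    have : ((8 * k * n - 1 : ℕ) : ZMod (8 * k * n - 1)) = 0 := ZMod.natCast_self _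
    rw [Nat.cast_sub (by omega)] at this
    rw [← this]
    push_cast
    ring
  obtain ⟨c, hc, hs⟩ := W_ex k n (ZMod (8 * k * n - 1)) hR
  obtain ⟨c', hc', hs'⟩ := h (ZMod (8 * k * n - 1)) c hc
  obtain ⟨d, hd, hs''⟩ := W_back k' n' _ c' hc'
  have h1 : Ideal.Quotient.mk (Ideal.span {d}) (1 : ZMod (8 * k * n - 1)) = 0 := by
    refine hs _ _ (hs' _ _ (hs'' _ _ ?_))
    rw [Ideal.Quotient.eq_zero_iff_mem]
    exact Ideal.mem_span_singleton_self d
  rw [Ideal.Quotient.eq_zero_iff_mem, Ideal.mem_span_singleton] at h1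
  obtain ⟨e, he⟩ := h1
  calc ((8 * k' * n' : ℕ) - 1 : ZMod (8 * k * n - 1))
      = ((8 * k' * n' : ℕ) - 1) * (d * e) := by rw [← he, mul_one]
    _ = (((8 * k' * n' : ℕ) - 1) * d) * e := by ring
    _ = 0 := by rw [hd, zero_mul]

theorem W_dvd (k n k' n' : ℕ) (hk : 0 < k) (hn : 0 < n) (hk' : 0 < k') (hn' : 0 < n')
    (h : Tr (W k n) (W k' n')) : 8 * k * n - 1 ∣ 8 * k' * n' - 1 := by
  have hp : 0 < 8 * k * n := by positivity
  have hp' : 0 < 8 * k' * n' := by positivity
  rcases W_tr k n k' n' h with h | h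
  · rw [← ZMod.natCast_eq_zero_iff, Nat.cast_sub (by omega)]
    rw [← h]
    push_cast
    ring
  · omega

theorem W_inj (k n k' n' : ℕ) (hk : 0 < k) (hn : 0 < n) (hk' : 0 < k') (hn' : 0 < n')
    (h : Equivalent (W k n) (W k' n')) : k * n = k' * n' := by
  obtain ⟨h1, h2⟩ := tr_eqv h
  have e := Nat.dvd_antisymm (W_dvd k n k' n' hk hn hk' hn' h1) (W_dvd k' n' k n hk' hn' hk hn h2)
  have hp : 0 < 8 * k * n := by positivity
  have hp' : 0 < 8 * k' * n' := by positivity
  have e2 : 8 * k * n = 8 * k' * n' := by omega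
  rw [mul_assoc, mul_assoc] at e2
  omega

theorem W_nontrivial (k n : ℕ) (hk : 0 < k) (hn : 0 < n) : ¬ Equivalent (W k n) unknot := by
  intro h
  have h1 := (tr_eqv h).1
  have hp : 0 < k * n := by positivity
  have hR : ((8 * k * n : ℕ) - 1 : ZMod (8 * k * n - 1)) = 0 := by
    have : ((8 * k * n - 1 : ℕ) : ZMod (8 * k * n - 1)) = 0 := ZMod.natCast_self _
    rw [Nat.cast_sub (by rw [mul_assoc]; omega)] at this
    rw [← this]
    push_cast
    ring
  obtain ⟨c, hc, hs⟩ := W_ex k n (ZMod (8 * k * n - 1)) hR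
  obtain ⟨c', hc', hs'⟩ := h1 (ZMod (8 * k * n - 1)) c hc
  have h2 := hs _ (RingHom.id _) (hs' _ (RingHom.id _) (fun x y => rfl))
  have : Fact (1 < 8 * k * n - 1) := ⟨by rw [mul_assoc]; omega⟩
  exact one_ne_zero h2

end Pool.Agent.K4H9.NJ
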