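import Pool.Agent.K4H9.NJ.Defs
import Pool.Agent.H891R2.Jones.Final
import Pool.Agent.H891R2.Jones.Closed

/-! The normalised bracket of inserted twists. -/

set_option autoImplicit false

namespace Pool.Agent.K4H9.NJ

open Finset LaurentPolynomial Pool.Agent.H891R2.Jones

variable {m N : ℕ}

/-- the operators -/
noncomputable def opS (A : ℂ) (m N : ℕ) (pos : Bool) (i : ℕ) :
    Module.End ℂ ((Fin m → Fin N) → ((Fin m → Fin N) → ℂ)) :=
  sg (if pos then A else A⁻¹) (ee m N ((Fin m → Fin N) → ℂ)) i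

/-- exchange of two places -/
noncomputable def opP (m N : ℕ) (p q : Fin m) :
    Module.End ℂ ((Fin m → Fin N) → ((Fin m → Fin N) → ℂ)) where
  toFun ψ := fun x => ψ (x ∘ Equiv.swap p q)
  map_add' _ _ := rfl
  map_smul' _ _ := rfl

theorem Zg_push (A : ℂ) (O : Outer m) (pos : Bool) (i : ℕ) (h : i + 1 < m)
    (g : (Fin m → Fin N) → ((Fin m → Fin N) → ℂ)) :
    Zg A N (O.push pos i) g = Zg A N O (opS A m N pos i g) := by
  cases pos
  · exact Zg_push_false O i h g
  · exact Zg_push_true O i h g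

theorem Zg_pushN (A : ℂ) (O : Outer m) (pos : Bool) (i : ℕ) (h : i + 1 < m) : ∀ (n : ℕ)
    (g : (Fin m → Fin N) → ((Fin m → Fin N) → ℂ)),
    Zg A N (pushN O pos i n) g = Zg A N O ((opS A m N pos i ^ n) g)
  | 0, g => rfl
  | n + 1, g => by
    have e : pushN O pos i (n + 1) = (pushN O pos i n).push pos i := rfl
    rw [e, Zg_push A _ pos i h g, Zg_pushN A O pos i h n, pow_succ]
    rfl

theorem Zg_virt (A : ℂ) (O : Outer m) (i : ℕ) (h : i + 1 < m)
    (g : (Fin m → Fin N) → ((Fin m → Fin N) → ℂ)) :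
    Zg A N (virt O i) g =
      Zg A N O (opP m N ⟨i, Nat.lt_of_succ_lt h⟩ ⟨i + 1, h⟩ g) := by
  unfold virt
  rw [dif_pos h]
  rfl

theorem opP_EE (p q : Fin m) :
    opP m N p q * (EE p q : Module.End ℂ ((Fin m → Fin N) → ((Fin m → Fin N) → ℂ))) = EE p q := by
  apply LinearMap.ext
  intro ψ
  funext x
  rw [Module.End.mul_apply]
  show (EE p q ψ) (x ∘ Equiv.swap p q) = _
  rw [EE_apply, EE_apply]
  have h1 : (x ∘ Equiv.swap p q) p = x q := by simp
  have h2 : (x ∘ Equiv.swap p q) q = x p := by simp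
  rw [h1, h2]
  by_cases h : x p = x q
  · rw [if_pos h, if_pos h.symm]
    refine Finset.sum_congr rfl fun c _ => ?_
    congr 1
    funext j
    unfold upd
    by_cases hj : j = p ∨ j = q
    · rw [if_pos hj, if_pos hj]
    · rw [if_neg hj, if_neg hj]
      rw [not_or] at hj
      simp [Equiv.swap_apply_of_ne_of_ne hj.1 hj.2]
  · rw [if_neg h, if_neg (fun h' => h h'.symm)]

theorem EE_opP (p q : Fin m) :
    (EE p q : Module.End ℂ ((Fin m → Fin N) → ((Fin m → Fin N) → ℂ))) * opP m N p q = EE p q := by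
  apply LinearMap.ext
  intro ψ
  funext x
  rw [Module.End.mul_apply, EE_apply, EE_apply]
  refine if_congr Iff.rfl (Finset.sum_congr rfl fun c _ => ?_) rfl
  show ψ (upd x p q c ∘ Equiv.swap p q) = _
  congr 1
  funext j
  by_cases hp : j = p
  · subst hp; simp [upd]
  · by_cases hq : j = q
    · subst hq; simp [upd]
    · simp [Equiv.swap_apply_of_ne_of_ne hp hq]

theorem opP_sq (p q : Fin m) : opP m N p q * opP m N p q = 1 := by
  apply LinearMap.ext
  intro ψ
  funext x
  show ψ ((x ∘ Equiv.swap p q) ∘ Equiv.swap p q) = ψ x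
  congr 1
  funext j
  simp

theorem opP_comm (A : ℂ) (pos : Bool) (i : ℕ) (h : i + 1 < m) :
    Commute (opP m N ⟨i, Nat.lt_of_succ_lt h⟩ ⟨i + 1, h⟩) (opS A m N pos i) := by
  have h1 : ee m N ((Fin m → Fin N) → ℂ) i = EE ⟨i, Nat.lt_of_succ_lt h⟩ ⟨i + 1, h⟩ := dif_pos h
  unfold opS sg Commute SemiconjBy
  rw [h1, mul_add, add_mul, mul_smul_comm, mul_smul_comm, smul_mul_assoc, smul_mul_assoc, opP_EE,
    EE_opP, mul_one, one_mul]

theorem opS_inv {A : ℂ} (hA : A ≠ 0) (hN : (N : ℂ) = -A ^ 2 - A⁻¹ ^ 2) (pos : Bool) (i : ℕ)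
    (h : i + 1 < m) : opS A m N pos i * opS A m N (!pos) i = 1 := by
  cases pos
  · exact sg_inv' hA hN (isTL_ee m N) i h
  · exact sg_inv hA hN (isTL_ee m N) i h

theorem opS_comm (A : ℂ) (pos pos' : Bool) (i : ℕ) :
    Commute (opS A m N pos i) (opS A m N pos' i) := by
  unfold opS sg Commute SemiconjBy
  simp only [mul_add, add_mul, mul_smul_comm, smul_mul_assoc, mul_one, one_mul, smul_add, smul_smul]
  match_scalars <;> ring

/-- the partition function does not see the inserted twists -/
theorem Zg_ins {A : ℂ} (hA : A ≠ 0) (hN : (N : ℂ) = -A ^ 2 - A⁻¹ ^ 2) (O : Outer m) (pos : Bool)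
    (i k : ℕ) (h : i + 1 < m) (g : (Fin m → Fin N) → ((Fin m → Fin N) → ℂ)) :
    Zg A N (ins O pos i k) g = Zg A N O g := by
  unfold ins
  rw [Zg_pushN A _ _ i h, Zg_virt A _ i h, Zg_pushN A _ _ i h, Zg_virt A _ i h]
  have key : opP m N ⟨i, Nat.lt_of_succ_lt h⟩ ⟨i + 1, h⟩ * (opS A m N pos i ^ (2 * k) *
      (opP m N ⟨i, Nat.lt_of_succ_lt h⟩ ⟨i + 1, h⟩ * opS A m N (!pos) i ^ (2 * k))) = 1 := by
    rw [← mul_assoc (opS A m N pos i ^ (2 * k)), ((opP_comm A pos i h).pow_right (2 * k)).symm.eq,
      mul_assoc, ← mul_assoc, opP_sq, one_mul, ← (opS_comm A pos (!pos) i).mul_pow,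
      opS_inv hA hN pos i h, one_pow]
  have := congrArg (fun F : Module.End ℂ ((Fin m → Fin N) → ((Fin m → Fin N) → ℂ)) => F g) key
  simp only [Module.End.mul_apply, Module.End.one_apply] at this
  rw [this]

theorem owr_virt (O : Outer m) (i : ℕ) (h : i + 1 < m) :
    owr (virt O i) = owr O ∧ pat (virt O i).up = pat O.up ∘ Equiv.swap i (i + 1) := by
  unfold virt
  rw [dif_pos h]
  exact ⟨rfl, pat_swap O.up i h⟩

theorem owr_pushN (O : Outer m) (pos : Bool) (i : ℕ) (h : i + 1 < m) : ∀ n : ℕ,
    owr (pushN O pos i n) = owr O + (if pos then 1 else -1) * (n * (pat O.up i * pat O.up (i + 1))) ∧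
    pat (pushN O pos i n).up = (if Even n then pat O.up else pat O.up ∘ Equiv.swap i (i + 1))
  | 0 => by
    constructor
    · simp [pushN]
    · simp [pushN]
  | n + 1 => by
    obtain ⟨h1, h2⟩ := owr_pushN O pos i h n
    have e : pushN O pos i (n + 1) = (pushN O pos i n).push pos i := rfl
    obtain ⟨h3, h4⟩ := push_writhe (pushN O pos i n) pos i h
    rw [e]
    constructor
    · rw [h3, h1, h2]
      split_ifs with hn
      · push_cast; ring
      · simp only [Function.comp_apply, Equiv.swap_apply_left, Equiv.swap_apply_right]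
        push_cast; ring
      · push_cast; ring
      · simp only [Function.comp_apply, Equiv.swap_apply_left, Equiv.swap_apply_right]
        push_cast; ring
    · rw [h4, h2]
      by_cases hn : Even n
      · rw [if_pos hn, if_neg (by rw [Nat.even_add_one]; exact not_not.2 hn)]
      · rw [if_neg hn, if_pos (by rw [Nat.even_add_one]; exact hn)]
        funext j
        simp

theorem owr_ins (O : Outer m) (pos : Bool) (i k : ℕ) (h : i + 1 < m) :
    owr (ins O pos i k) = owr O ∧ pat (ins O pos i k).up = pat O.up := by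
  have he : Even (2 * k) := even_two_mul k
  obtain ⟨a1, a2⟩ := owr_virt O i h
  obtain ⟨b1, b2⟩ := owr_pushN (virt O i) pos i h (2 * k)
  obtain ⟨c1, c2⟩ := owr_virt (pushN (virt O i) pos i (2 * k)) i h
  obtain ⟨d1, d2⟩ := owr_pushN (virt (pushN (virt O i) pos i (2 * k)) i) (!pos) i h (2 * k)
  rw [if_pos he] at b2 d2
  unfold ins
  constructor
  · rw [d1, c1, b1, a1, c2, b2, a2]
    simp only [Function.comp_apply, Equiv.swap_apply_left, Equiv.swap_apply_right]
    cases pos <;> simp <;> ring
  · rw [d2, c2, b2, a2]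
    funext j
    simp

theorem ins_fPoly (O : Outer m) (pos : Bool) (i k : ℕ) (h : i + 1 < m) :
    (ins O pos i k).close.fPoly = O.close.fPoly := by
  have hw : (ins O pos i k).close.writhe = O.close.writhe := (owr_ins O pos i k h).1
  have hne : Nonempty (ins O pos i k).P := ⟨(ins O pos i k).lower ⟨i, Nat.lt_of_succ_lt h⟩⟩
  have hne' : Nonempty O.P := ⟨O.lower ⟨i, Nat.lt_of_succ_lt h⟩⟩
  have hb : (ins O pos i k).close.bracket - O.close.bracket = 0 := by
    have h1 : (ins O pos i k).close.bracket - O.close.bracket + 1 = 1 := by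
      refine eq_one_of_ev _ fun N hN => ?_
      rw [map_add, map_sub, map_one]
      have h2 := ev_bracket N hN (ins O pos i k).close
      have h3 := ev_bracket N hN O.close
      rw [Z_close, Zg_ins (Ar_ne N hN) (Ar_d N hN) O pos i k h, ← Z_close, ← h3] at h2
      have h4 : (N : ℂ) ≠ 0 := by
        have : N ≠ 0 := by omega
        exact_mod_cast this
      have h5 := mul_left_cancel₀ h4 h2
      rw [h5, sub_self, zero_add]
    linear_combination h1
  unfold Diagram.fPoly
  rw [hw, sub_eq_zero.1 hb]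

/-! ### the unknot with kinks -/

theorem kink_sum {A : ℂ} (hA : A ≠ 0) (hN : (N : ℂ) = -A ^ 2 - A⁻¹ ^ 2) (n : ℕ) :
    ∀ (x : Fin 3 → Fin N) (b : Fin N),
      ∑ c, ((opS A 3 N false 0 ^ n) (fun x y => ind (x = y))) x ![c, c, b] =
        (-A ^ 3) ^ n * ind (x 0 = x 1 ∧ x 2 = b) := by
  induction n with
  | zero =>
    intro x b
    rw [pow_zero, pow_zero, one_mul]
    simp only [Module.End.one_apply]
    by_cases h : x 0 = x 1 ∧ x 2 = b
    · rw [ind_pos h, Finset.sum_eq_single (x 0)]
      · refine ind_pos ?_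
        funext j
        fin_cases j
        · rfl
        · exact h.1.symm
        · exact h.2
      · intro c _ hc
        refine ind_neg fun h' => hc ?_
        have := congrFun h' 0
        exact this.symm
      · intro h'; exact absurd (Finset.mem_univ _) h'
    · rw [ind_neg h]
      refine Finset.sum_eq_zero fun c _ => ind_neg fun h' => h ⟨?_, ?_⟩
      · have h1 := congrFun h' 0
        have h2 := congrFun h' 1
        exact h1.trans h2.symm
      · exact congrFun h' 2
  | succ n ih =>
    intro x b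
    rw [pow_succ']
    set ψ := (opS A 3 N false 0 ^ n) (fun x y => ind (x = y)) with hψ
    have h1 : ∀ c, ((opS A 3 N false 0 * opS A 3 N false 0 ^ n) (fun x y => ind (x = y))) x ![c, c, b] =
        A⁻¹ * ψ x ![c, c, b] + A * (if x 0 = x 1 then ∑ c', ψ (upd x 0 1 c') ![c, c, b] else 0) := by
      intro c
      rw [Module.End.mul_apply, ← hψ]
      unfold opS sg ee
      rw [dif_pos (by norm_num)]
      simp only [LinearMap.add_apply, LinearMap.smul_apply, Pi.add_apply, Pi.smul_apply,
        Module.End.one_apply, EE_apply, smul_eq_mul, inv_inv, Bool.false_eq_true, if_false]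
      congr 2
      have e0 : (⟨0, Nat.lt_of_succ_lt (by norm_num : 0 + 1 < 3)⟩ : Fin 3) = 0 := rfl
      have e1 : (⟨0 + 1, by norm_num⟩ : Fin 3) = 1 := rfl
      rw [e0, e1]
      split_ifs
      · rw [Finset.sum_apply]
      · rfl
    rw [Finset.sum_congr rfl fun c _ => h1 c, Finset.sum_add_distrib, ← Finset.mul_sum,
      ← Finset.mul_sum, ih x b]
    by_cases h : x 0 = x 1
    · simp only [if_pos h]
      rw [Finset.sum_comm]
      have h2 : ∀ c' ∈ (Finset.univ : Finset (Fin N)), ∑ c, ψ (upd x 0 1 c') ![c, c, b] =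
          (-A ^ 3) ^ n * ind (x 2 = b) := by
        intro c' _
        rw [ih]
        congr 1
        refine ind_congr ⟨fun h => ?_, fun h => ⟨?_, ?_⟩⟩
        · have := h.2
          rwa [upd_other x c' (by decide) (by decide)] at this
        · rw [upd_left, upd_right]
        · rwa [upd_other x c' (by decide) (by decide)]
      rw [Finset.sum_congr rfl h2, Finset.sum_const, Finset.card_univ, Fintype.card_fin, nsmul_eq_mul,
        ind_congr (show (x 0 = x 1 ∧ x 2 = b) ↔ x 2 = b from ⟨fun h => h.2, fun h' => ⟨h, h'⟩⟩), hN]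
      field_simp
      ring
    · simp only [if_neg h]
      rw [ind_neg (fun h' => h h'.1)]
      simp

def e3 (N : ℕ) : (Fin 3 → Fin N) ≃ Fin N × Fin N × Fin N where
  toFun c := (c 0, c 1, c 2)
  invFun a := ![a.1, a.2.1, a.2.2]
  left_inv c := by funext j; fin_cases j <;> rfl
  right_inv a := rfl

theorem Zg_base (A : ℂ) (F : (Fin 3 → Fin N) → ((Fin 3 → Fin N) → ℂ)) :
    Zg A N base F = ∑ a : Fin N, ∑ b : Fin N, ∑ c : Fin N, F ![a, b, b] ![c, c, a] := by
  have h1 : Zg A N base F = ∑ col : Fin 3 → Fin N, F ![col 0, col 1, col 1] ![col 2, col 2, col 0] := by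
    have key : ∀ col : Fin 3 → Fin N, WW A base.arcs base.crossings (show base.P → Fin N from col) *
        F ((show base.P → Fin N from col) ∘ base.lower) ((show base.P → Fin N from col) ∘ base.upper) =
        F ![col 0, col 1, col 1] ![col 2, col 2, col 0] := by
      intro col
      have e1 : WW A base.arcs base.crossings (show base.P → Fin N from col) = 1 := by
        unfold WW base
        simp
      have e2 : (show base.P → Fin N from col) ∘ base.lower = ![col 0, col 1, col 1] := by
        funext j; fin_cases j <;> rfl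
      have e3 : (show base.P → Fin N from col) ∘ base.upper = ![col 2, col 2, col 0] := by
        funext j; fin_cases j <;> rfl
      rw [e1, e2, e3, one_mul]
    exact Finset.sum_congr rfl fun col _ => key col
  rw [h1, ← (e3 N).symm.sum_comp, Fintype.sum_prod_type]
  refine Finset.sum_congr rfl fun a _ => ?_
  rw [Fintype.sum_prod_type]
  rfl

theorem kink_fPoly (n : ℕ) : (pushN base false 0 (2 * n)).close.fPoly = 1 := by
  have hw : (pushN base false 0 (2 * n)).close.writhe = 2 * n := by
    have h1 := (owr_pushN base false 0 (by norm_num) (2 * n)).1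
    rw [close_writhe, h1]
    have h2 : pat base.up 0 = 1 := rfl
    have h3 : pat base.up (0 + 1) = -1 := rfl
    have h4 : owr base = 0 := rfl
    rw [h2, h3, h4]
    push_cast
    simp
  have hne : Nonempty (pushN base false 0 (2 * n)).P := ⟨(pushN base false 0 (2 * n)).lower 0⟩
  refine eq_one_of_ev _ fun N hN => ?_
  have h2 := ev_bracket N hN (pushN base false 0 (2 * n)).close
  rw [Z_close, Zg_pushN (Ar N) base false 0 (by norm_num), Zg_base] at h2
  have h3 : ∀ a : Fin N, ∑ b : Fin N, ∑ c : Fin N,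
      ((opS (Ar N) 3 N false 0 ^ (2 * n)) (fun x y => ind (x = y))) ![a, b, b] ![c, c, a] =
        (-Ar N ^ 3) ^ (2 * n) := by
    intro a
    rw [Finset.sum_congr rfl fun b _ => kink_sum (Ar_ne N hN) (Ar_d N hN) (2 * n) ![a, b, b] a,
      ← Finset.mul_sum, Finset.sum_eq_single a]
    · rw [ind_pos ⟨rfl, rfl⟩, mul_one]
    · intro b _ hb
      exact ind_neg fun h => hb h.2
    · intro h; exact absurd (Finset.mem_univ _) h
  rw [Finset.sum_congr rfl fun a _ => h3 a, Finset.sum_const, Finset.card_univ, Fintype.card_fin,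
    nsmul_eq_mul] at h2
  have h4 : (N : ℂ) ≠ 0 := by
    have : N ≠ 0 := by omega
    exact_mod_cast this
  have h5 := mul_left_cancel₀ h4 h2
  unfold Diagram.fPoly
  rw [hw, if_pos ⟨(n : ℤ), by ring⟩, one_mul, map_mul, h5, ev_T, (even_two_mul n).neg_pow, ← pow_mul]
  have hA := Ar_ne N hN
  rw [← zpow_natCast, ← zpow_add₀ hA]
  have : (-3 * (2 * (n : ℤ)) + ((3 * (2 * n) : ℕ) : ℤ)) = 0 := by push_cast; ring
  rw [this, zpow_zero]

theorem W_fPoly (k n : ℕ) : (W k n).fPoly = 1 := by
  unfold W
  rw [ins_fPoly _ _ _ _ (by norm_num), kink_fPoly]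

end Pool.Agent.K4H9.NJ
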