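import Pool.Agent.H891R2.Jones.Diagram

/-!
# Diagrams on surfaces: stable equivalence, regions, null-homologous diagrams

The starting library `Pool.Agent.H891R2.Jones.Diagram` contains: `Crossing P`, `Diagram P` (oriented
diagrams with marked points `P`; the arcs only say which marked points are joined, so these are
diagrams of links in thickened surfaces, i.e. virtual link diagrams), `Diagram.IsClosed`,
`Diagram.fPoly` (the normalised Kauffman bracket, all loops counting equally), `Outer m` (the part of a
diagram outside a box through which `m` strands run), `Outer.push`, `Outer.close`.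
-/

set_option autoImplicit false

namespace Pool.Agent.K4H9.NJ

open Pool.Agent.H891R2.Jones

/-! ### stable equivalence -/

/-- the crossing of sign `s` (`true`: positive) at which the over-strand runs from `o` to `o'` and the
under-strand runs from `u` to `u'` -/
def cr {P : Type} (s : Bool) (o o' u u' : P) : Crossing P :=
  if s then ⟨u, o', u', o, true, false⟩ else ⟨u, o, u', o', true, true⟩

/-- the same crossing, with the list of the four marked points starting at the opposite point -/
def turn {P : Type} (x : Crossing P) : Crossing P := ⟨x.c, x.d, x.a, x.b, !x.underFwd, !x.overFwd⟩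

/-- relabelling of the marked points of a diagram -/
def mapD {P Q : Type} (f : P → Q) (D : Diagram P) : Diagram Q :=
  ⟨D.arcs.map (Prod.map f f), D.crossings.map (Crossing.map f)⟩

/-- a diagram together with its set of marked points -/
structure VD where
  P : Type
  D : Diagram P

/-- the first (`b = true`) or second piece of the strand `x 0 → x 1 → x 2` -/
def seg {P : Type} (b : Bool) (x : Fin 3 → P) : P × P := if b then (x 0, x 1) else (x 1, x 2)

/-- the crossing of sign `s` of the over-strand piece `o` and the under-strand piece `u` -/
def crs {P : Type} (s : Bool) (o u : P × P) : Crossing P := cr s o.1 o.2 u.1 u.2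

/-- three strands `t` (top), `m` (middle), `b` (bottom) crossing each other; the signs of the crossings
of `t, m`, of `t, b` and of `m, b` are `s1`, `s2`, `s3`; `ot` (`om`, `ob`) is `true` if the strand `t`
(`m`, `b`) meets the two other strands in the order `m, b` (`t, b`; `t, m`) -/
def tri {P : Type} (ot om ob s1 s2 s3 : Bool) (t m b : Fin 3 → P) : List (Crossing P) :=
  [crs s1 (seg ot t) (seg om m), crs s2 (seg (!ot) t) (seg ob b), crs s3 (seg (!om) m) (seg (!ob) b)]

/-- the marked points of a strand in a triangle -/
def pts {P : Type} (x y : P) (i : Fin 3) : Fin 3 → P ⊕ Fin 3 := ![.inl x, .inr i, .inl y]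

/-- Changes of a diagram which do not change the stable equivalence class of the link in a thickened
surface (the virtual link). -/
inductive Move : VD → VD → Prop
  /-- the names of the marked points are changed -/
  | iso {P Q : Type} (e : P ≃ Q) (D : Diagram P) : Move ⟨P, D⟩ ⟨Q, mapD e D⟩
  /-- the order of the lists is changed -/
  | perm {P : Type} {A A' : List (P × P)} {C C' : List (Crossing P)} : A.Perm A' → C.Perm C' →
      Move ⟨P, ⟨A, C⟩⟩ ⟨P, ⟨A', C'⟩⟩
  /-- the description of a crossing is changed -/
  | turn {P : Type} (A : List (P × P)) (x : Crossing P) (C : List (Crossing P)) :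
      Move ⟨P, ⟨A, x :: C⟩⟩ ⟨P, ⟨A, turn x :: C⟩⟩
  /-- an arc between two different marked points is contracted -/
  | contract {P : Type} (p : P) (A : List (Option P × Option P)) (C : List (Crossing (Option P))) :
      Move ⟨Option P, ⟨(some p, none) :: A, C⟩⟩ ⟨P, mapD (fun x => x.getD p) ⟨A, C⟩⟩
  /-- first Reidemeister move, over-strand first -/
  | r1 {P : Type} (s : Bool) (p q : P) (A : List (P × P)) (C : List (Crossing P)) :
      Move ⟨P, ⟨(p, q) :: A, C⟩⟩
        ⟨Option P, ⟨A.map (Prod.map some some),
          cr s (some p) none none (some q) :: C.map (Crossing.map some)⟩⟩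
  /-- first Reidemeister move, under-strand first -/
  | r1' {P : Type} (s : Bool) (p q : P) (A : List (P × P)) (C : List (Crossing P)) :
      Move ⟨P, ⟨(p, q) :: A, C⟩⟩
        ⟨Option P, ⟨A.map (Prod.map some some),
          cr s none (some q) (some p) none :: C.map (Crossing.map some)⟩⟩
  /-- second Reidemeister move, parallel strands -/
  | r2 {P : Type} (s : Bool) (p q r t : P) (A : List (P × P)) (C : List (Crossing P)) :
      Move ⟨P, ⟨(p, q) :: (r, t) :: A, C⟩⟩
        ⟨P ⊕ Bool, ⟨A.map (Prod.map .inl .inl),
          cr s (.inl p) (.inr false) (.inl r) (.inr true) ::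
            cr (!s) (.inr false) (.inl q) (.inr true) (.inl t) :: C.map (Crossing.map .inl)⟩⟩
  /-- second Reidemeister move, antiparallel strands -/
  | r2' {P : Type} (s : Bool) (p q r t : P) (A : List (P × P)) (C : List (Crossing P)) :
      Move ⟨P, ⟨(p, q) :: (r, t) :: A, C⟩⟩
        ⟨P ⊕ Bool, ⟨A.map (Prod.map .inl .inl),
          cr s (.inl p) (.inr false) (.inr true) (.inl t) ::
            cr (!s) (.inr false) (.inl q) (.inl r) (.inr true) :: C.map (Crossing.map .inl)⟩⟩
  /-- third Reidemeister move, for all directions of the three strands: the condition on the signs says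
  that the three strands bound a triangle -/
  | r3 {P : Type} (ot om ob s1 s2 s3 : Bool) (h1 : s1 = ((om == ob) == s2))
      (h3 : s3 = ((om == ot) == s2)) (t0 t2 m0 m2 b0 b2 : P) (A : List (P × P))
      (C : List (Crossing P)) :
      Move ⟨P ⊕ Fin 3, ⟨A.map (Prod.map .inl .inl),
          tri ot om ob s1 s2 s3 (pts t0 t2 0) (pts m0 m2 1) (pts b0 b2 2) ++
            C.map (Crossing.map .inl)⟩⟩
        ⟨P ⊕ Fin 3, ⟨A.map (Prod.map .inl .inl),
          tri (!ot) (!om) (!ob) s1 s2 s3 (pts t0 t2 0) (pts m0 m2 1) (pts b0 b2 2) ++
            C.map (Crossing.map .inl)⟩⟩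

/-- stable equivalence -/
def Equivalent {P Q : Type} (D : Diagram P) (E : Diagram Q) : Prop :=
  Relation.EqvGen Move ⟨P, D⟩ ⟨Q, E⟩

/-- the diagram of the unknot without crossings -/
def unknot : Diagram Unit := ⟨[((), ())], []⟩

/-- two marked points are joined by a piece (arc, under-strand or over-strand) of a diagram -/
def Piece {P : Type} (D : Diagram P) (p q : P) : Prop :=
  (p, q) ∈ D.arcs ∨ ∃ x ∈ D.crossings, (p = x.a ∧ q = x.c) ∨ (p = x.b ∧ q = x.d)

/-- the diagram is closed and has one component -/
def IsKnot {P : Type} [DecidableEq P] (D : Diagram P) : Prop :=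
  D.IsClosed ∧ ∀ p q, Relation.EqvGen (Piece D) p q

/-! ### regions -/

/-- The two sides `(p, true)` (left) and `(p, false)` (right) of the strands at the marked points `p`;
two sides are related if they are sides of the same arc or belong to the same corner of a crossing (the
corners `a b`, `b c`, `c d` and `d a` of the crossing with the marked points `a, b, c, d`). -/
def Adj {P : Type} (D : Diagram P) (s t : P × Bool) : Prop :=
  (∃ x ∈ D.arcs, ∃ b, s = (x.1, b) ∧ t = (x.2, b)) ∨
  ∃ x ∈ D.crossings, (s = (x.a, !x.underFwd) ∧ t = (x.b, x.overFwd)) ∨
    (s = (x.b, !x.overFwd) ∧ t = (x.c, !x.underFwd)) ∨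
    (s = (x.c, x.underFwd) ∧ t = (x.d, !x.overFwd)) ∨
    (s = (x.d, x.overFwd) ∧ t = (x.a, x.underFwd))

/-- The number of regions of the diagram, that is, of the discs which have to be added to the
neighbourhood of the diagram in the surface in order to get the closed surface of the diagram.  If the
diagram is closed and connected, with `c ≥ 1` crossings and `r` regions, then this surface has the
Euler characteristic `r - c`. -/
noncomputable def regions {P : Type} (D : Diagram P) : ℕ := Nat.card (Quot (Adj D))

/-- The diagram lies on a torus (or on a sphere): the genus of the surface of the diagram is at most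
one, its Euler characteristic is at least zero. -/
def OnTorus {P : Type} (D : Diagram P) : Prop := D.crossings.length ≤ regions D

/-- The knot is null-homologous in the thickened surface of the diagram (it bounds a Seifert surface,
it is almost classical): the regions can be numbered such that the number on the left of every strand is
the number on the right plus one. -/
def NullHomologous {P : Type} (D : Diagram P) : Prop :=
  ∃ f : P × Bool → ℤ, (∀ s t, Adj D s t → f s = f t) ∧ ∀ p, f (p, true) = f (p, false) + 1

end Pool.Agent.K4H9.NJ
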