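import Pool.Agent.K4H9.NJ.Ext

/-! Colourings of the diagrams with inserted twists, and of `W k n`. -/

set_option autoImplicit false
set_option linter.unusedVariables false

namespace Pool.Agent.K4H9.NJ

open Pool.Agent.H891R2.Jones

variable {m : ℕ}

section

variable {R : Type} [CommRing R]

/-- colouring of the outer part -/
def ColO (O : Outer m) (c : O.P → R) : Prop :=
  (∀ x ∈ O.arcs, c x.1 = c x.2) ∧ ∀ x ∈ O.crossings, CrOK c x

theorem col_close (O : Outer m) (c : O.P → R) :
    IsCol O.close c ↔ ColO O c ∧ ∀ j, c (O.lower j) = c (O.upper j) := by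
  unfold IsCol ColO
  rw [close_arcs]
  constructor
  · rintro ⟨⟨h1, h2⟩, h3⟩
    exact ⟨⟨h1, h3⟩, h2⟩
  · rintro ⟨⟨h1, h3⟩, h2⟩
    exact ⟨⟨h1, h2⟩, h3⟩

/-- the colours of the strands below `e` crossings (with sign) -/
def adC (p q : Fin m) (e : ℤ) (y : Fin m → R) : Fin m → R :=
  fun j => if j = p ∨ j = q then y j + e * (y q - y p) else y j

theorem adC_adC (p q : Fin m) (e e' : ℤ) (y : Fin m → R) :
    adC p q e (adC p q e' y) = adC p q (e + e') y := by
  funext j
  unfold adC
  simp only [true_or, or_true, if_true]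
  split_ifs
  · push_cast
    ring
  · rfl

theorem adC_zero (p q : Fin m) (y : Fin m → R) : adC p q 0 y = y := by
  funext j
  unfold adC
  split_ifs <;> simp

/-- the sign of the new crossing for the colours -/
def sg (pos : Bool) : ℤ := if pos then -1 else 1

theorem crOK_new (O : Outer m) (p q : Fin m) (pos : Bool) (c : O.P → R)
    (y : Fin m → R) :
    CrOK (Sum.elim c y) (O.newCrossing p q pos) ↔
      y p = adC p q (sg pos) (fun j => c (O.lower j)) p ∧
        y q = adC p q (sg pos) (fun j => c (O.lower j)) q := by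
  cases pos
  · simp only [CrOK, Outer.newCrossing, Bool.false_eq_true, if_false, Sum.elim_inl, Sum.elim_inr, adC, sg,
      true_or, or_true, if_true]
    push_cast
    constructor
    · rintro ⟨h1, h2⟩
      exact ⟨by linear_combination -h1, by linear_combination h2⟩
    · rintro ⟨h1, h2⟩
      exact ⟨by linear_combination -h1, by linear_combination h2⟩
  · simp only [CrOK, Outer.newCrossing, if_true, Sum.elim_inl, Sum.elim_inr, adC, sg,
      true_or, or_true]
    push_cast
    constructor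
    · rintro ⟨h1, h2⟩
      exact ⟨by linear_combination h2 + 2 * h1, by linear_combination h1⟩
    · rintro ⟨h1, h2⟩
      exact ⟨by linear_combination h2, by linear_combination h1 - 2 * h2⟩

theorem colO_pushD (O : Outer m) (pos : Bool) (i : ℕ) (h : i + 1 < m) (c : O.P → R) (y : Fin m → R) :
    ColO (pushD O pos i h) (Sum.elim c y : O.P ⊕ Fin m → R) ↔
      ColO O c ∧ y = adC (pl i h) (pr i h) (sg pos) (fun j => c (O.lower j)) := by
  have h1 : ColO (pushD O pos i h) (Sum.elim c y : O.P ⊕ Fin m → R) ↔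
      ((∀ x ∈ O.arcs, c x.1 = c x.2) ∧
        ∀ j, j ≠ pl i h → j ≠ pr i h → c (O.lower j) = y j) ∧
      ((∀ x ∈ O.crossings, CrOK c x) ∧
        CrOK (Sum.elim c y) (O.newCrossing (pl i h) (pr i h) pos)) :=
    and_congr (pushD_arcs O pos i h _) (pushD_crossings O pos i h (fun x => CrOK _ x))
  rw [h1, crOK_new O _ _]
  constructor
  · rintro ⟨⟨h2, h3⟩, h4, h5, h6⟩
    refine ⟨⟨h2, h4⟩, ?_⟩
    funext j
    by_cases hj : j = pl i h
    · rw [hj]; exact h5
    · by_cases hj' : j = pr i h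
      · rw [hj']; exact h6
      · rw [← h3 j hj hj']
        unfold adC
        rw [if_neg (by tauto)]
  · rintro ⟨⟨h2, h3⟩, rfl⟩
    refine ⟨⟨h2, fun j hj hj' => ?_⟩, h3, rfl, rfl⟩
    unfold adC
    rw [if_neg (by tauto)]

/-- extending a colouring -/
theorem ex_push (O : Outer m) (pos : Bool) (i : ℕ) (h : i + 1 < m) (z y : Fin m → R)
    (hc : ∃ c : O.P → R, ColO O c ∧ (∀ j, c (O.upper j) = z j) ∧ (∀ j, c (O.lower j) = y j)) :
    ∃ c : (O.push pos i).P → R, ColO (O.push pos i) c ∧ (∀ j, c ((O.push pos i).upper j) = z j) ∧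
      (∀ j, c ((O.push pos i).lower j) = adC (pl i h) (pr i h) (sg pos) y j) := by
  obtain ⟨c, hc, hz, hy⟩ := hc
  rw [push_eq O pos i h]
  have hy' : (fun j => c (O.lower j)) = y := funext hy
  refine ⟨(Sum.elim c (adC (pl i h) (pr i h) (sg pos) (fun j => c (O.lower j))) : O.P ⊕ Fin m → R),
    (colO_pushD O pos i h c _).2 ⟨hc, rfl⟩, hz, fun j => ?_⟩
  rw [← hy']
  rfl

/-- the swap -/
def swC (p q : Fin m) (y : Fin m → R) : Fin m → R := fun j => y (Equiv.swap p q j)

theorem ex_virt (O : Outer m) (i : ℕ) (h : i + 1 < m) (z y : Fin m → R)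
    (hc : ∃ c : O.P → R, ColO O c ∧ (∀ j, c (O.upper j) = z j) ∧ (∀ j, c (O.lower j) = y j)) :
    ∃ c : (virt O i).P → R, ColO (virt O i) c ∧ (∀ j, c ((virt O i).upper j) = z j) ∧
      (∀ j, c ((virt O i).lower j) = swC (pl i h) (pr i h) y j) := by
  obtain ⟨c, hc, hz, hy⟩ := hc
  rw [virt_eq O i h]
  exact ⟨c, hc, hz, fun j => hy _⟩

/-- existence of colourings -/
def Ex (O : Outer m) (z y : Fin m → R) : Prop :=
  ∃ c : O.P → R, ColO O c ∧ (∀ j, c (O.upper j) = z j) ∧ (∀ j, c (O.lower j) = y j)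

theorem ex_pushN (O : Outer m) (pos : Bool) (i : ℕ) (h : i + 1 < m) (z y : Fin m → R)
    (hc : Ex O z y) : ∀ n : ℕ, Ex (pushN O pos i n) z (adC (pl i h) (pr i h) (n * sg pos) y)
  | 0 => by
    have e : ((0 : ℕ) : ℤ) * sg pos = 0 := by simp
    rw [e, adC_zero]
    exact hc
  | n + 1 => by
    have := ex_push _ pos i h z _ (ex_pushN O pos i h z y hc n)
    rw [adC_adC] at this
    have e : sg pos + (n : ℤ) * sg pos = ((n + 1 : ℕ) : ℤ) * sg pos := by push_cast; ring
    rw [e] at this
    exact this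

theorem sw_ad_sw (p q : Fin m) (hpq : p ≠ q) (e : ℤ) (y : Fin m → R) :
    swC p q (adC p q e (swC p q y)) = adC p q (-e) y := by
  funext j
  unfold swC adC
  simp only [Equiv.swap_apply_left, Equiv.swap_apply_right, Equiv.swap_apply_self]
  by_cases h1 : j = p
  · subst h1
    simp only [Equiv.swap_apply_left, or_true, if_true, true_or]
    push_cast
    ring
  · by_cases h2 : j = q
    · subst h2
      simp only [Equiv.swap_apply_right, or_true, if_true, true_or]
      push_cast
      ring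
    · rw [Equiv.swap_apply_of_ne_of_ne h1 h2]
      simp [h1, h2]

theorem ex_ins (O : Outer m) (i k : ℕ) (h : i + 1 < m) (z y : Fin m → R)
    (hc : Ex O z y) : Ex (ins O true i k) z (adC (pl i h) (pr i h) (4 * k) y) := by
  have h1 := ex_pushN _ true i h z _ (ex_virt O i h z y hc) (2 * k)
  have h2 := ex_pushN _ false i h z _ (ex_virt _ i h z _ h1) (2 * k)
  have e : adC (pl i h) (pr i h) (((2 * k : ℕ) : ℤ) * sg false)
      (swC (pl i h) (pr i h) (adC (pl i h) (pr i h) (((2 * k : ℕ) : ℤ) * sg true)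
        (swC (pl i h) (pr i h) y))) = adC (pl i h) (pr i h) (4 * k) y := by
    rw [sw_ad_sw _ _ (pl_ne_pr i h), adC_adC]
    congr 1
    simp only [sg, if_true, Bool.false_eq_true, if_false]
    push_cast
    ring
  have e' : ∀ j, adC (pl i h) (pr i h) (((2 * k : ℕ) : ℤ) * sg false)
      (swC (pl i h) (pr i h) (adC (pl i h) (pr i h) (((2 * k : ℕ) : ℤ) * sg true)
        (swC (pl i h) (pr i h) y))) j = adC (pl i h) (pr i h) (4 * k) y j := fun j => congrFun e j
  obtain ⟨c, hc1, hc2, hc3⟩ := h2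
  refine ⟨c, hc1, hc2, fun j => ?_⟩
  rw [← e' j]
  exact hc3 j

end

/-! ### restricting colourings -/

/-- every colouring of `O'` restricts to one of `O` -/
def Back (O O' : Outer m) (L : ∀ (R : Type) [CommRing R], (Fin m → R) → (Fin m → R)) : Prop :=
  ∀ (R : Type) [CommRing R] (c' : O'.P → R), ColO O' c' → ∃ c : O.P → R, ColO O c ∧
    (∀ j, c' (O'.upper j) = c (O.upper j)) ∧ (∀ j, c' (O'.lower j) = L R (fun j => c (O.lower j)) j) ∧
    ∀ (S : Type) [CommRing S] (φ : R →+* S) (s : S), (∀ x, φ (c x) = s) → ∀ x, φ (c' x) = s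

theorem Back.trans {O O' O'' : Outer m} {L L' : ∀ (R : Type) [CommRing R], (Fin m → R) → (Fin m → R)}
    (h1 : Back O O' L) (h2 : Back O' O'' L') : Back O O'' (fun R _ y => L' R (L R y)) := by
  intro R _ c'' hc''
  obtain ⟨c', hc', hu', hl', hs'⟩ := h2 R c'' hc''
  obtain ⟨c, hc, hu, hl, hs⟩ := h1 R c' hc'
  refine ⟨c, hc, fun j => by rw [hu', hu], fun j => ?_, fun S _ φ s h => hs' S φ s (hs S φ s h)⟩
  rw [hl']
  have : (fun j => c' (O'.lower j)) = L R (fun j => c (O.lower j)) := funext hl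
  rw [this]

theorem back_push (O : Outer m) (pos : Bool) (i : ℕ) (h : i + 1 < m) :
    Back O (O.push pos i) (fun R _ y => adC (pl i h) (pr i h) (sg pos) y) := by
  rw [push_eq O pos i h]
  intro R _ c' hc'
  have e : c' = (Sum.elim (fun p => c' (.inl p)) (fun j => c' (.inr j)) : O.P ⊕ Fin m → R) := by
    funext x
    rcases x with x | x <;> rfl
  rw [e, colO_pushD] at hc'
  refine ⟨fun p => c' (.inl p), hc'.1, fun j => rfl, fun j => congrFun hc'.2 j, fun S _ φ s hs x => ?_⟩
  rcases x with x | j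
  · exact hs x
  · have := congrFun hc'.2 j
    rw [this]
    unfold adC
    split_ifs
    · rw [map_add, map_mul, map_sub, hs, hs, hs, sub_self, mul_zero, add_zero]
    · exact hs _

theorem back_virt (O : Outer m) (i : ℕ) (h : i + 1 < m) :
    Back O (virt O i) (fun R _ y => swC (pl i h) (pr i h) y) := by
  rw [virt_eq O i h]
  intro R _ c' hc'
  exact ⟨c', hc', fun j => rfl, fun j => rfl, fun S _ φ s hs => hs⟩

theorem Back.congr {O O' : Outer m} {L L' : ∀ (R : Type) [CommRing R], (Fin m → R) → (Fin m → R)}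
    (h1 : Back O O' L) (h2 : ∀ (R : Type) [CommRing R] y, L R y = L' R y) : Back O O' L' := by
  intro R _ c' hc'
  obtain ⟨c, hc, hu, hl, hs⟩ := h1 R c' hc'
  exact ⟨c, hc, hu, fun j => by rw [hl, h2], hs⟩

theorem back_pushN (O : Outer m) (pos : Bool) (i : ℕ) (h : i + 1 < m) : ∀ n : ℕ,
    Back O (pushN O pos i n) (fun R _ y => adC (pl i h) (pr i h) (n * sg pos) y)
  | 0 => by
    intro R _ (c' : O.P → R) hc'
    refine ⟨c', hc', fun j => rfl, fun j => ?_, fun S _ φ s hs => hs⟩
    show c' (O.lower j) = adC (pl i h) (pr i h) (((0 : ℕ) : ℤ) * sg pos) (fun j => c' (O.lower j)) j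
    have e : ((0 : ℕ) : ℤ) * sg pos = 0 := by simp
    rw [e, adC_zero]
  | n + 1 => by
    refine ((back_pushN O pos i h n).trans (back_push _ pos i h)).congr ?_
    intro R _ y
    rw [adC_adC]
    congr 1
    push_cast
    ring

theorem back_ins (O : Outer m) (i k : ℕ) (h : i + 1 < m) :
    Back O (ins O true i k) (fun R _ y => adC (pl i h) (pr i h) (4 * k) y) := by
  refine ((((back_virt O i h).trans (back_pushN _ true i h (2 * k))).trans
    (back_virt _ i h)).trans (back_pushN _ false i h (2 * k))).congr ?_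
  intro R _ y
  rw [sw_ad_sw _ _ (pl_ne_pr i h), adC_adC]
  congr 1
  simp only [sg, if_true, Bool.false_eq_true, if_false]
  push_cast
  ring

/-! ### colourings of `W k n` -/

theorem W_back (k n : ℕ) (R : Type) [CommRing R] (c' : (ins (pushN base false 0 (2 * n)) true 1 k).P → R)
    (hc' : IsCol (W k n) c') : ∃ d : R, ((8 * k * n : ℕ) - 1 : R) * d = 0 ∧
      ∀ (S : Type) [CommRing S] (φ : R →+* S), φ d = 0 → ∀ x y, φ (c' x) = φ (c' y) := by
  have h0 : 0 + 1 < 3 := by norm_num
  have h1 : 1 + 1 < 3 := by norm_num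
  obtain ⟨(c : Fin 3 → R), hc, hu, hl, hs⟩ := ((back_pushN base false 0 h0 (2 * n)).trans
    (back_ins (pushN base false 0 (2 * n)) 1 k h1)) R c' ((col_close _ _).1 hc').1
  have hcl := ((col_close _ _).1 hc').2
  have key : ∀ j : Fin 3, adC (pl 1 h1) (pr 1 h1) (4 * k) (adC (pl 0 h0) (pr 0 h0)
      (((2 * n : ℕ) : ℤ) * sg false) (fun j => c (base.lower j))) j = c (base.upper j) := by
    intro j
    rw [← hu j, ← hcl j, hl j]
  have k0 : c 0 + 2 * n * (c 1 - c 0) = c 2 := by
    have := key 0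
    simp [adC, pl, pr, sg, base] at this
    linear_combination this
  have k2 : c 1 - 8 * k * n * (c 1 - c 0) = c 0 := by
    have := key 2
    simp [adC, pl, pr, sg, base] at this
    linear_combination this
  refine ⟨c 1 - c 0, ?_, fun S _ φ hφ => ?_⟩
  · push_cast
    linear_combination -k2
  · have e1 : φ (c 1) = φ (c 0) := by
      rw [map_sub] at hφ
      linear_combination hφ
    have e2 : φ (c 2) = φ (c 0) := by
      rw [← k0, map_add, map_mul, hφ, mul_zero, add_zero]
    have := hs S φ (φ (c 0)) (fun x => by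
      fin_cases x
      · rfl
      · exact e1
      · exact e2)
    intro x y
    rw [this x, this y]

theorem W_ex (k n : ℕ) (R : Type) [CommRing R] (hR : ((8 * k * n : ℕ) - 1 : R) = 0) :
    ∃ c' : (ins (pushN base false 0 (2 * n)) true 1 k).P → R, IsCol (W k n) c' ∧
      ∀ (S : Type) [CommRing S] (φ : R →+* S), (∀ x y, φ (c' x) = φ (c' y)) → φ 1 = 0 := by
  have h0 : 0 + 1 < 3 := by norm_num
  have h1 : 1 + 1 < 3 := by norm_num
  set b : Fin 3 → R := ![0, 1, 2 * n] with hb
  have e1 : Ex base (fun j => b (base.upper j)) (fun j => b (base.lower j)) :=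
    ⟨b, ⟨fun _ hx => absurd hx List.not_mem_nil, fun _ hx => absurd hx List.not_mem_nil⟩, fun _ => rfl, fun _ => rfl⟩
  obtain ⟨c', hc', hu, hl⟩ := ex_ins _ 1 k h1 _ _ (ex_pushN base false 0 h0 _ _ e1 (2 * n))
  push_cast at hR
  have key : ∀ j : Fin 3, adC (pl 1 h1) (pr 1 h1) (4 * k) (adC (pl 0 h0) (pr 0 h0)
      (((2 * n : ℕ) : ℤ) * sg false) (fun j => b (base.lower j))) j = b (base.upper j) := by
    intro j
    fin_cases j
    · simp [adC, pl, pr, sg, base, hb]
    · simp [adC, pl, pr, sg, base, hb]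
      linear_combination -hR
    · simp [adC, pl, pr, sg, base, hb]
      linear_combination -hR
  refine ⟨c', (col_close _ _).2 ⟨hc', fun j => ?_⟩, fun S _ φ hφ => ?_⟩
  · rw [hl, hu, key]
  · have h2 := hφ ((ins (pushN base false 0 (2 * n)) true 1 k).upper (0 : Fin 3))
      ((ins (pushN base false 0 (2 * n)) true 1 k).upper (2 : Fin 3))
    rw [hu, hu] at h2
    have h3 : φ (2 * n : R) = φ (0 : R) := h2
    rw [map_zero] at h3
    have h5 : (1 : R) = (4 * k) * (2 * n) := by linear_combination -hR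
    rw [h5, map_mul, h3, mul_zero]

end Pool.Agent.K4H9.NJ
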